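import Pool.Agent.Lib.MP_0d9445_pr.Layers

/-! Layers, part 2: the layer covariance through one primitive `DD`. -/

open MeasureTheory Set Filter Topology Real
open Pool.Agent.Lib.MP_0d9445_pr

noncomputable section

namespace LQ.Lay

/-- the properties of the radial kernel -/
structure IsKer (k : ℝ → ℝ) : Prop where
  smooth : ContDiff ℝ 1 k
  zero : k 0 = 1
  supp : ∀ s, 1 / 2 ≤ s → k s = 0
  nonneg : ∀ s, 0 ≤ k s
  le_one : ∀ s, k s ≤ 1

/-- primitive of `(1 - k u) / u` -/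
def DD (k : ℝ → ℝ) (r : ℝ) : ℝ := ∫ u in (0 : ℝ)..r, (1 - k u) / u

/-- the additive constant of the logarithmic kernel -/
def c0 (k : ℝ → ℝ) : ℝ := -DD k 1

variable {k : ℝ → ℝ}

/-- the continuous version of `(1 - k u) / u` -/
def frG (k : ℝ → ℝ) (u : ℝ) : ℝ := -dslope k 0 u

theorem IsKer.fr_cont (hk : IsKer k) : Continuous k := hk.smooth.continuous

theorem IsKer.fr_contG (hk : IsKer k) : Continuous (frG k) := by
  refine Continuous.neg (continuous_iff_continuousAt.2 fun u => ?_)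
  by_cases hu : u = 0
  · subst hu
    exact continuousAt_dslope_same.2 (hk.smooth.differentiable one_ne_zero 0)
  · exact (continuousAt_dslope_of_ne hu).2 hk.fr_cont.continuousAt

theorem IsKer.fr_G_eq (hk : IsKer k) {u : ℝ} (hu : u ≠ 0) : frG k u = (1 - k u) / u := by
  rw [frG, dslope_of_ne _ hu, slope_def_field, hk.zero]
  field_simp
  ring

theorem IsKer.fr_DD_eq (hk : IsKer k) (r : ℝ) : DD k r = ∫ u in (0 : ℝ)..r, frG k u := by
  refine intervalIntegral.integral_congr_ae ?_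
  have h0 : ∀ᵐ u : ℝ, u ≠ 0 := by
    rw [ae_iff]; simp
  filter_upwards [h0] with u hu _
  rw [hk.fr_G_eq hu]

theorem IsKer.fr_DD_sub (hk : IsKer k) (a b : ℝ) :
    DD k b - DD k a = ∫ u in a..b, frG k u := by
  rw [hk.fr_DD_eq, hk.fr_DD_eq]
  exact intervalIntegral.integral_interval_sub_left (hk.fr_contG.intervalIntegrable _ _)
    (hk.fr_contG.intervalIntegrable _ _)

theorem fr_norm (j : ℤ) (x y : ℂ) :
    ‖(2 : ℂ) ^ j * x - (2 : ℂ) ^ j * y‖ = 2 ^ j * ‖x - y‖ := by
  rw [← mul_sub, norm_mul, norm_zpow]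
  simp

theorem DD_zero : DD k 0 = 0 := by simp [DD]

theorem IsKer.continuous_DD (hk : IsKer k) : Continuous (DD k) := by
  have : DD k = fun r => ∫ u in (0 : ℝ)..r, frG k u := funext hk.fr_DD_eq
  rw [this]
  exact intervalIntegral.continuous_primitive (fun a b => hk.fr_contG.intervalIntegrable a b) 0

theorem IsKer.DD_large (hk : IsKer k) {a : ℝ} (ha : 1 / 2 ≤ a) : DD k a = log a - c0 k := by
  have ha0 : 0 < a := by linarith
  have h1 := hk.fr_DD_sub 1 a
  have h2 : ∫ u in (1 : ℝ)..a, frG k u = ∫ u in (1 : ℝ)..a, u⁻¹ := by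
    refine intervalIntegral.integral_congr fun u hu => ?_
    have hu' : 1 / 2 ≤ u := by
      rcases mem_uIcc.1 hu with h | h <;> linarith [h.1]
    have hu0 : u ≠ 0 := by intro h; rw [h] at hu'; norm_num at hu'
    rw [hk.fr_G_eq hu0, hk.supp u hu']
    simp
  rw [h2, integral_inv_of_pos one_pos ha0, div_one] at h1
  rw [c0]
  linarith

theorem IsKer.layCov_eq (hk : IsKer k) (j : ℤ) (x y : ℂ) :
    layCov k j x y = log 2 - DD k (2 ^ (j + 1) * ‖x - y‖) + DD k (2 ^ j * ‖x - y‖) := by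
  set r := ‖x - y‖ with hr
  have ha : (0 : ℝ) < 2 ^ j := by positivity
  have hb : (0 : ℝ) < 2 ^ (j + 1) := by positivity
  have h1 : layCov k j x y
      = ∫ v in (2 : ℝ) ^ j..(2 : ℝ) ^ (j + 1), (v⁻¹ - r * frG k (v * r)) := by
    refine intervalIntegral.integral_congr fun v hv => ?_
    have hv0 : 0 < v := by
      rcases mem_uIcc.1 hv with h | h <;> linarith [h.1]
    by_cases h0 : r = 0
    · simp [← hr, h0, hk.zero]
    · simp only [← hr]
      rw [hk.fr_G_eq (mul_ne_zero hv0.ne' h0)]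
      field_simp
      ring
  have hi1 : IntervalIntegrable (fun v : ℝ => v⁻¹) volume ((2 : ℝ) ^ j) ((2 : ℝ) ^ (j + 1)) := by
    refine ContinuousOn.intervalIntegrable (continuousOn_inv₀.mono fun v hv => ?_)
    have hv0 : 0 < v := by
      rcases mem_uIcc.1 hv with h | h <;> linarith [h.1]
    exact hv0.ne'
  have hi2 : IntervalIntegrable (fun v : ℝ => r * frG k (v * r)) volume ((2 : ℝ) ^ j)
      ((2 : ℝ) ^ (j + 1)) :=
    (continuous_const.mul (hk.fr_contG.comp (continuous_id.mul continuous_const))).intervalIntegrable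
      _ _
  rw [h1, intervalIntegral.integral_sub hi1 hi2, integral_inv_of_pos ha hb,
    intervalIntegral.integral_const_mul, intervalIntegral.mul_integral_comp_mul_right,
    ← hk.fr_DD_sub]
  have : (2 : ℝ) ^ (j + 1) / 2 ^ j = 2 := by
    rw [zpow_add_one₀ two_ne_zero]; field_simp
  rw [this]
  ring

theorem IsKer.layCov_eq_exp (hk : IsKer k) (j : ℤ) (x y : ℂ) :
    layCov k j x y = ∫ s in (0 : ℝ)..log 2, k (exp s * ‖(2 : ℂ) ^ j * x - (2 : ℂ) ^ j * y‖) := by
  rw [fr_norm]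
  set r := ‖x - y‖ with hr
  have ha : (0 : ℝ) < 2 ^ j := by positivity
  have key := intervalIntegral.integral_comp_mul_deriv' (a := (0 : ℝ)) (b := log 2)
    (f := fun s => (2 : ℝ) ^ j * exp s) (f' := fun s => (2 : ℝ) ^ j * exp s)
    (g := fun v => k (v * r) / v)
    (fun s _ => (Real.hasDerivAt_exp s).const_mul _)
    (Continuous.continuousOn (by fun_prop))
    (by
      refine ContinuousOn.div
        (Continuous.continuousOn (hk.fr_cont.comp (continuous_id.mul continuous_const)))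
        continuousOn_id ?_
      rintro v ⟨s, -, rfl⟩
      positivity)
  have e0 : (2 : ℝ) ^ j * exp 0 = 2 ^ j := by simp
  have e1 : (2 : ℝ) ^ j * exp (log 2) = 2 ^ (j + 1) := by
    rw [exp_log two_pos, zpow_add_one₀ two_ne_zero]
  simp only [e0, e1] at key
  rw [layCov, ← hr, ← key]
  refine intervalIntegral.integral_congr fun s _ => ?_
  have hs : (2 : ℝ) ^ j * exp s ≠ 0 := by positivity
  simp only [Function.comp]
  rw [div_mul_cancel₀ _ hs]
  congr 1
  ring

theorem IsKer.continuous_layCov (hk : IsKer k) (j : ℤ) :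
    Continuous fun p : ℂ × ℂ => layCov k j p.1 p.2 := by
  simp only [hk.layCov_eq]
  have h := hk.continuous_DD
  fun_prop

theorem IsKer.layCov_self (hk : IsKer k) (j : ℤ) (x : ℂ) : layCov k j x x = log 2 := by
  rw [hk.layCov_eq]
  simp

theorem IsKer.layCov_nonneg (hk : IsKer k) (j : ℤ) (x y : ℂ) : 0 ≤ layCov k j x y := by
  rw [hk.layCov_eq_exp]
  exact intervalIntegral.integral_nonneg (log_nonneg one_le_two) fun s _ => hk.nonneg _

theorem IsKer.layCov_le (hk : IsKer k) (j : ℤ) (x y : ℂ) : layCov k j x y ≤ log 2 := by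
  rw [hk.layCov_eq_exp]
  have hc := hk.fr_cont
  calc ∫ s in (0 : ℝ)..log 2, k (exp s * ‖(2 : ℂ) ^ j * x - (2 : ℂ) ^ j * y‖)
      ≤ ∫ _s in (0 : ℝ)..log 2, (1 : ℝ) :=
        intervalIntegral.integral_mono_on (log_nonneg one_le_two)
          (Continuous.intervalIntegrable (by fun_prop) _ _)
          (continuous_const.intervalIntegrable _ _) fun s _ => hk.le_one _
    _ = log 2 := by simp

theorem IsKer.layCov_eq_zero (hk : IsKer k) {j : ℤ} {x y : ℂ}
    (h : (2 : ℝ) ^ (-j) / 2 ≤ ‖x - y‖) : layCov k j x y = 0 := by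
  rw [hk.layCov_eq_exp, fr_norm]
  have ha : (0 : ℝ) < 2 ^ j := by positivity
  have h1 : 1 / 2 ≤ (2 : ℝ) ^ j * ‖x - y‖ := by
    have h2 : (2 : ℝ) ^ j * ((2 : ℝ) ^ (-j) / 2) = 1 / 2 := by
      rw [zpow_neg]; field_simp
    rw [← h2]
    exact mul_le_mul_of_nonneg_left h ha.le
  have h3 : ∫ s in (0 : ℝ)..log 2, k (exp s * (2 ^ j * ‖x - y‖))
      = ∫ _s in (0 : ℝ)..log 2, (0 : ℝ) := by
    refine intervalIntegral.integral_congr fun s hs => ?_
    rw [uIcc_of_le (log_nonneg one_le_two)] at hs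
    have h4 : 1 ≤ exp s := one_le_exp hs.1
    refine hk.supp _ ?_
    nlinarith
  rw [h3]
  simp

theorem layCov_comm (k : ℝ → ℝ) (j : ℤ) (x y : ℂ) : layCov k j x y = layCov k j y x := by
  rw [layCov, layCov, norm_sub_rev]

theorem IsKer.layCov_dy (hk : IsKer k) (n m : ℤ) (i : ℕ) (b x y : ℂ) :
    layCov k (n + m) (dy m i * x + b) (dy m i * y + b) = layCov k n x y := by
  rw [hk.layCov_eq_exp, hk.layCov_eq_exp, fr_norm, fr_norm]
  have h1 : ‖dy m i * x + b - (dy m i * y + b)‖ = 2 ^ (-m) * ‖x - y‖ := by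
    rw [add_sub_add_right_eq_sub, ← mul_sub, norm_mul, dy, norm_mul, norm_zpow, norm_pow]
    simp
  have h2 : (2 : ℝ) ^ (n + m) * (2 ^ (-m) * ‖x - y‖) = 2 ^ n * ‖x - y‖ := by
    rw [zpow_add₀ two_ne_zero, zpow_neg]
    field_simp
  rw [h1, h2]

theorem IsKer.fr_sum (hk : IsKer k) (x y : ℂ) (N : ℕ) :
    ∑ j ∈ Finset.range N, layCov k j x y
      = N * log 2 - DD k (2 ^ N * ‖x - y‖) + DD k ‖x - y‖ := by
  induction N with
  | zero => simp
  | succ N ih =>
    rw [Finset.sum_range_succ, ih, hk.layCov_eq]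
    have e1 : (2 : ℝ) ^ ((N : ℤ) + 1) = 2 ^ (N + 1) := by
      rw [← zpow_natCast]; push_cast; rfl
    rw [e1, zpow_natCast]
    push_cast
    ring

/-- fine layers: the logarithm -/
theorem IsKer.hasSum_layCov (hk : IsKer k) {x y : ℂ} (h : x ≠ y) :
    HasSum (fun j : ℕ => layCov k j x y) (-log ‖x - y‖ + c0 k + DD k ‖x - y‖) := by
  have hr : 0 < ‖x - y‖ := norm_pos_iff.2 (sub_ne_zero.2 h)
  rw [hasSum_iff_tendsto_nat_of_nonneg fun j => hk.layCov_nonneg j x y]
  have ht : Tendsto (fun N : ℕ => (2 : ℝ) ^ N * ‖x - y‖) atTop atTop :=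
    (tendsto_pow_atTop_atTop_of_one_lt one_lt_two).atTop_mul_const hr
  refine tendsto_const_nhds.congr' ?_
  filter_upwards [ht.eventually_ge_atTop (1 / 2)] with N hN
  rw [hk.fr_sum, hk.DD_large hN, log_mul (by positivity) hr.ne', log_pow]
  ring

theorem IsKer.fr_sum_neg (hk : IsKer k) (x y : ℂ) (N : ℕ) :
    ∑ j ∈ Finset.range N, (log 2 - layCov k (-1 - j) x y)
      = DD k ‖x - y‖ - DD k ((1 / 2) ^ N * ‖x - y‖) := by
  induction N with
  | zero => simp
  | succ N ih =>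
    rw [Finset.sum_range_succ, ih, hk.layCov_eq]
    have e1 : (2 : ℝ) ^ (-1 - (N : ℤ) + 1) = (1 / 2) ^ N := by
      rw [show -1 - (N : ℤ) + 1 = -(N : ℤ) by ring, zpow_neg, zpow_natCast, one_div, inv_pow]
    have e2 : (2 : ℝ) ^ (-1 - (N : ℤ)) = (1 / 2) ^ (N + 1) := by
      rw [show -1 - (N : ℤ) = -((N + 1 : ℕ) : ℤ) by push_cast; ring, zpow_neg, zpow_natCast,
        one_div, inv_pow]
    rw [e1, e2]
    ring

/-- coarse layers -/
theorem IsKer.hasSum_layCov_neg (hk : IsKer k) (x y : ℂ) :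
    HasSum (fun j : ℕ => log 2 - layCov k (-1 - j) x y) (DD k ‖x - y‖) := by
  rw [hasSum_iff_tendsto_nat_of_nonneg fun j => sub_nonneg.2 (hk.layCov_le _ x y)]
  simp only [hk.fr_sum_neg]
  have ht : Tendsto (fun N : ℕ => ((1 : ℝ) / 2) ^ N * ‖x - y‖) atTop (𝓝 0) := by
    have := (tendsto_pow_atTop_nhds_zero_of_lt_one (r := (1 : ℝ) / 2) (by norm_num)
      (by norm_num)).mul_const ‖x - y‖
    simpa using this
  have h2 := (hk.continuous_DD.tendsto 0).comp ht
  rw [DD_zero] at h2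
  simpa using h2.const_sub (DD k ‖x - y‖)

end LQ.Lay
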