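import Mathlib

/-! Layers, part 1: the bump `phi` and the covariance kernel `ker = phi * phi`. -/

open MeasureTheory Set Filter Topology Real
open scoped ContDiff

noncomputable section

namespace LQ.Lay

/-- radial smooth bump supported in the disc of radius `1/4` -/
def phi0 (z : ℂ) : ℝ := expNegInvGlue (1 / 16 - ‖z‖ ^ 2)

/-- the bump with square integral one -/
def phi (z : ℂ) : ℝ := phi0 z / √(∫ w, phi0 w ^ 2)

/-- the self convolution of the bump -/
def kk (z : ℂ) : ℝ := ∫ w, phi w * phi (z - w)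

/-- the radial profile of `kk` -/
def ker (s : ℝ) : ℝ := kk s

theorem Kern_phi0_smooth : ContDiff ℝ ∞ phi0 :=
  expNegInvGlue.contDiff.comp (contDiff_const.sub (contDiff_norm_sq ℝ))

theorem Kern_phi0_zero {z : ℂ} (h : 1 / 4 ≤ ‖z‖) : phi0 z = 0 :=
  expNegInvGlue.zero_of_nonpos (by nlinarith)

theorem Kern_supp {f : ℂ → ℝ} (h : ∀ z, 1 / 4 ≤ ‖z‖ → f z = 0) : HasCompactSupport f :=
  HasCompactSupport.intro (isCompact_closedBall (0 : ℂ) (1 / 4)) fun z hz =>
    h z (le_of_lt (by simpa using hz))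

theorem Kern_int_pos : 0 < ∫ w, phi0 w ^ 2 := by
  refine Continuous.integral_pos_of_hasCompactSupport_nonneg_nonzero (x := 0)
    (Kern_phi0_smooth.continuous.pow 2) (Kern_supp fun z hz => by simp [Kern_phi0_zero hz])
    (fun z => sq_nonneg _) (pow_ne_zero 2 (expNegInvGlue.pos_of_pos ?_).ne')
  norm_num

theorem phi_smooth : ContDiff ℝ ∞ phi := Kern_phi0_smooth.div_const _

theorem phi_nonneg (z : ℂ) : 0 ≤ phi z := div_nonneg (expNegInvGlue.nonneg _) (sqrt_nonneg _)

theorem phi_eq_zero {z : ℂ} (h : 1 / 4 ≤ ‖z‖) : phi z = 0 := by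
  rw [phi, Kern_phi0_zero h, zero_div]

theorem phi_congr {z w : ℂ} (h : ‖z‖ = ‖w‖) : phi z = phi w := by
  rw [phi, phi, phi0, phi0, h]

theorem integral_phi_sq : ∫ w, phi w ^ 2 = 1 := by
  simp only [phi, div_pow, sq_sqrt Kern_int_pos.le]
  rw [integral_div, div_self Kern_int_pos.ne']

theorem kk_eq (z : ℂ) : kk z = ker ‖z‖ := by
  have h := integral_comp (rotation (Circle.exp z.arg)) fun w => phi w * phi (z - w)
  rw [kk, ← h, ker, kk]
  refine integral_congr_ae (Eventually.of_forall fun w => ?_)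
  have e : z - rotation (Circle.exp z.arg) w = rotation (Circle.exp z.arg) ((‖z‖ : ℂ) - w) := by
    rw [map_sub, rotation_apply _ (‖z‖ : ℂ), Circle.coe_exp, mul_comm,
      Complex.norm_mul_exp_arg_mul_I]
  simp only [e]
  rw [phi_congr (LinearIsometryEquiv.norm_map _ w), phi_congr (LinearIsometryEquiv.norm_map _ _)]

theorem ker_smooth : ContDiff ℝ 1 ker := by
  have h : ContDiff ℝ 1 (convolution phi phi (ContinuousLinearMap.mul ℝ ℝ) volume) :=
    (Kern_supp fun _ => phi_eq_zero).contDiff_convolution_right (n := 1) _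
      phi_smooth.continuous.locallyIntegrable (phi_smooth.of_le (by exact_mod_cast le_top))
  exact h.comp Complex.ofRealCLM.contDiff

theorem ker_zero : ker 0 = 1 := by
  rw [← integral_phi_sq, ker, kk]
  refine integral_congr_ae (Eventually.of_forall fun w => ?_)
  simp only
  rw [sq, phi_congr (z := ((0 : ℝ) : ℂ) - w) (w := w) (by simp)]

theorem ker_supp (s : ℝ) (h : 1 / 2 ≤ s) : ker s = 0 := by
  rw [ker, kk]
  refine integral_eq_zero_of_ae (Eventually.of_forall fun w => ?_)
  rcases le_or_gt (1 / 4) ‖w‖ with k | k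
  · simp [phi_eq_zero k]
  · have h1 := norm_sub_norm_le (s : ℂ) w
    rw [Complex.norm_real, Real.norm_eq_abs] at h1
    have h2 := le_abs_self s
    simp [phi_eq_zero (z := s - w) (by linarith)]

theorem ker_nonneg (s : ℝ) : 0 ≤ ker s :=
  integral_nonneg fun _ => mul_nonneg (phi_nonneg _) (phi_nonneg _)

theorem ker_le_one (s : ℝ) : ker s ≤ 1 := by
  have i1 : Integrable fun w => phi w ^ 2 :=
    (phi_smooth.continuous.pow 2).integrable_of_hasCompactSupport
      (Kern_supp fun z hz => by simp [phi_eq_zero hz])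
  have i2 : Integrable fun w => phi ((s : ℂ) - w) ^ 2 := i1.comp_sub_left (s : ℂ)
  have e2 : ∫ w, phi ((s : ℂ) - w) ^ 2 = 1 := by
    rw [integral_sub_left_eq_self (fun w => phi w ^ 2) volume (s : ℂ), integral_phi_sq]
  have h : ker s ≤ ∫ w, (phi w ^ 2 + phi ((s : ℂ) - w) ^ 2) / 2 :=
    integral_mono_of_nonneg
      (Eventually.of_forall fun _ => mul_nonneg (phi_nonneg _) (phi_nonneg _))
      ((i1.add i2).div_const 2) (Eventually.of_forall fun w => by
        have := sq_nonneg (phi w - phi ((s : ℂ) - w))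
        simp only
        linarith)
  rw [integral_div, integral_add i1 i2, integral_phi_sq, e2] at h
  linarith

theorem integral_phi_mul_phi {a : ℝ} (ha : 0 < a) (x y : ℂ) :
    ∫ w, (a * phi (a • (x - w))) * (a * phi (a • (y - w))) = ker (a * ‖x - y‖) := by
  have h1 := integral_sub_left_eq_self
    (fun w => a ^ 2 * (phi (a • w) * phi (a • (x - y) - a • w))) volume x
  have h2 := Measure.integral_comp_smul volume (fun w => phi w * phi (a • (x - y) - w)) a
  rw [Complex.finrank_real_complex, abs_of_pos (by positivity), smul_eq_mul] at h2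
  have h3 : ker (a * ‖x - y‖) = kk (a • (x - y)) := by
    rw [kk_eq, norm_smul, Real.norm_eq_abs, abs_of_pos ha]
  rw [integral_const_mul (a ^ 2) fun w => phi (a • w) * phi (a • (x - y) - a • w), h2,
    mul_inv_cancel_left₀ (by positivity)] at h1
  rw [h3, kk, ← h1]
  refine integral_congr_ae (Eventually.of_forall fun w => ?_)
  have e : ‖a • (x - y) - a • (x - w)‖ = ‖a • (y - w)‖ := by
    rw [← norm_neg]
    congr 1
    module
  simp only [phi_congr e]
  ring

end LQ.Lay
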