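import Pool.Agent.Lib.MP_0d9445_pr.Lay.Ver
import Pool.Agent.Lib.MP_0d9445_pr.Lay.Kernel
import Pool.Agent.Lib.MP_0d9445_pr.Lay.Frull

/-! Layers, part 7: the kernels of the layers in `L²(ℝ × ℂ)`. -/

open MeasureTheory ProbabilityTheory Set Filter Topology Real
open Pool.Agent.Lib.MP_0d9445_pr
open scoped ENNReal RealInnerProductSpace ContDiff

noncomputable section

namespace LQ.Lay

/-- the Hilbert space of the white noise -/
abbrev HH : Type := Lp ℝ 2 (volume : Measure (ℝ × ℂ))

instance : (volume : Measure (ℝ × ℂ)).IsAddRightInvariant := by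
  rw [Measure.volume_eq_prod]; infer_instance

instance : SecondCountableTopology HH := by
  have : Fact ((2 : ℝ≥0∞) ≠ ⊤) := ⟨by norm_num⟩
  infer_instance

/-- translation -/
def tr (a : ℝ × ℂ) : HH →ₗᵢ[ℝ] HH :=
  Lp.compMeasurePreservingₗᵢ ℝ (fun z => z - a) (measurePreserving_sub_right volume a)

theorem coe_tr (a : ℝ × ℂ) (f : HH) : (tr a f : ℝ × ℂ → ℝ) =ᵐ[volume] fun z => f (z - a) :=
  Lp.coeFn_compMeasurePreserving f (measurePreserving_sub_right volume a)

theorem continuous_tr (f : HH) : Continuous fun a => tr a f := by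
  let g : ℝ × ℂ → C(ℝ × ℂ, ℝ × ℂ) := fun a => ⟨fun z => z - a, by fun_prop⟩
  have hg : Continuous g := ContinuousMap.continuous_of_continuous_uncurry _ (by
    change Continuous fun p : (ℝ × ℂ) × (ℝ × ℂ) => p.2 - p.1
    fun_prop)
  exact Continuous.compMeasurePreservingLp (f := fun _ => f) continuous_const hg
    (fun a => measurePreserving_sub_right volume a) (by norm_num)

/-- `(s, w) ↦ G (s, -w)` for `0 < s ≤ log 2` -/
def cut (G : ℝ × ℂ → ℝ) (z : ℝ × ℂ) : ℝ := (Ioc 0 (log 2)).indicator (fun s => G (s, -z.2)) z.1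

theorem measurable_cut {G : ℝ × ℂ → ℝ} (hG : Continuous G) : Measurable (cut G) :=
  Measurable.ite (measurable_fst measurableSet_Ioc)
    (hG.comp (continuous_fst.prodMk continuous_snd.neg)).measurable measurable_const

theorem memLp_cut {G : ℝ × ℂ → ℝ} (hG : Continuous G)
    (h0 : ∀ s z, -1 < s → 1 < ‖z‖ → G (s, z) = 0) : MemLp (cut G) 2 volume := by
  have hK : IsCompact (Icc (0 : ℝ) (log 2) ×ˢ Metric.closedBall (0 : ℂ) 1) :=
    isCompact_Icc.prod (isCompact_closedBall _ _)
  obtain ⟨M, hM⟩ := hK.exists_bound_of_continuousOn hG.continuousOn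
  refine (memLp_indicator_const 2 hK.measurableSet M (Or.inr hK.measure_lt_top.ne)).mono'
    (measurable_cut hG).aestronglyMeasurable (ae_of_all _ fun z => ?_)
  have hM0 : 0 ≤ M := (norm_nonneg _).trans (hM (0, 0) ⟨⟨le_rfl, log_nonneg one_le_two⟩, by simp⟩)
  by_cases hs : z.1 ∈ Ioc 0 (log 2)
  · by_cases hw : ‖z.2‖ ≤ 1
    · rw [cut, indicator_of_mem hs, indicator_of_mem (show z ∈ Icc (0 : ℝ) (log 2) ×ˢ
        Metric.closedBall (0 : ℂ) 1 from ⟨Ioc_subset_Icc_self hs, by simpa using hw⟩)]
      exact hM _ ⟨Ioc_subset_Icc_self hs, by simpa using hw⟩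
    · rw [cut, indicator_of_mem hs, h0 _ _ (by linarith [hs.1]) (by simpa using hw), norm_zero]
      exact indicator_nonneg (fun _ _ => hM0) _
  · rw [cut, indicator_of_notMem hs, norm_zero]
    exact indicator_nonneg (fun _ _ => hM0) _

theorem coe_tr_toLp {u : ℝ × ℂ → ℝ} (hu : MemLp u 2 volume) (a : ℝ × ℂ) :
    (tr a (hu.toLp u) : ℝ × ℂ → ℝ) =ᵐ[volume] fun z => u (z - a) :=
  (coe_tr a _).trans
    ((measurePreserving_sub_right volume a).quasiMeasurePreserving.ae_eq_comp hu.coeFn_toLp)

theorem inner_tr_toLp {u : ℝ × ℂ → ℝ} (hu : MemLp u 2 volume) (h : HH) (a : ℝ × ℂ) :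
    ⟪h, tr a (hu.toLp u)⟫ = ∫ z, h z * u (z - a) := by
  rw [L2.inner_def]
  refine integral_congr_ae ?_
  filter_upwards [coe_tr_toLp hu a] with z hz
  rw [hz]
  simp [mul_comm]

/-- the identity `F = theta * G` in the Hilbert space -/
theorem tr_eq_integral {F G : ℝ × ℂ → ℝ} (hF : MemLp (cut F) 2 volume) (hGc : Continuous G)
    (hG : MemLp (cut G) 2 volume)
    (h : ∀ s z, -1 < s → F (s, z) = ∫ v, theta (z - v) * G (s, v)) (σ : ℝ) (x : ℂ) :
    tr (σ, x) (hF.toLp _) = ∫ v, theta (x - v) • tr (σ, v) (hG.toLp _) := by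
  have hc : Continuous fun v : ℂ => tr (σ, v) (hG.toLp _) :=
    (continuous_tr _).comp (continuous_const.prodMk continuous_id)
  have hi := integrable_theta_smul hc (C := ‖hG.toLp _‖) (fun v => (tr _).norm_map _ |>.le) x
  refine ext_inner_left ℝ fun f => ?_
  rw [← integral_inner hi, inner_tr_toLp]
  simp_rw [real_inner_smul_right, inner_tr_toLp, ← integral_const_mul]
  have hf : Measurable (f : ℝ × ℂ → ℝ) := (Lp.stronglyMeasurable f).measurable
  have hth : Continuous fun v : ℂ => theta (x - v) :=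
    continuous_theta.comp (continuous_const.sub continuous_id)
  have hm : Measurable fun p : ℂ × (ℝ × ℂ) => theta (x - p.1) * (f p.2 * cut G (p.2 - (σ, p.1))) :=
    (hth.measurable.comp measurable_fst).mul ((hf.comp measurable_snd).mul
      ((measurable_cut hGc).comp (measurable_snd.sub (measurable_const.prodMk measurable_fst))))
  have hG' : ∀ v : ℂ, MemLp (fun z => cut G (z - (σ, v))) 2 volume := fun v =>
    hG.comp_measurePreserving (measurePreserving_sub_right volume _)
  have i1 : ∀ v : ℂ, Integrable fun z => f z * cut G (z - (σ, v)) := fun v =>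
    (Lp.memLp f).integrable_mul (hG' v)
  have hint : Integrable (Function.uncurry fun (v : ℂ) (z : ℝ × ℂ) =>
      theta (x - v) * (f z * cut G (z - (σ, v)))) (volume.prod volume) := by
    refine (integrable_prod_iff hm.aestronglyMeasurable).2
      ⟨ae_of_all _ fun v => (i1 v).const_mul (theta (x - v)), ?_⟩
    have i2 : Integrable fun v : ℂ => theta (x - v) * ((∫ z, f z ^ 2) + ∫ z, cut G z ^ 2) := by
      simpa using integrable_theta_smul (H := ℝ)
        (g := fun _ => (∫ z, f z ^ 2) + ∫ z, cut G z ^ 2) continuous_const (fun _ => le_rfl) x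
    refine i2.mono' hm.norm.stronglyMeasurable.integral_prod_right'.aestronglyMeasurable
      (ae_of_all _ fun v => ?_)
    rw [Real.norm_of_nonneg (integral_nonneg fun z => norm_nonneg _)]
    have i3 : Integrable fun z => f z ^ 2 + cut G (z - (σ, v)) ^ 2 :=
      (Lp.memLp f).integrable_sq.add (hG' v).integrable_sq
    calc ∫ z, ‖theta (x - v) * (f z * cut G (z - (σ, v)))‖
        ≤ ∫ z, theta (x - v) * (f z ^ 2 + cut G (z - (σ, v)) ^ 2) := by
          refine integral_mono_of_nonneg (ae_of_all _ fun z => norm_nonneg _) (i3.const_mul _)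
            (ae_of_all _ fun z => ?_)
          change ‖theta (x - v) * (f z * cut G (z - (σ, v)))‖ ≤ _
          rw [norm_mul, Real.norm_of_nonneg (theta_pos _).le, Real.norm_eq_abs]
          refine mul_le_mul_of_nonneg_left (abs_le.2 ⟨?_, ?_⟩) (theta_pos _).le
          · nlinarith [sq_nonneg (f z + cut G (z - (σ, v))), sq_nonneg (f z),
              sq_nonneg (cut G (z - (σ, v)))]
          · nlinarith [sq_nonneg (f z - cut G (z - (σ, v))), sq_nonneg (f z),
              sq_nonneg (cut G (z - (σ, v)))]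
      _ = _ := by
          rw [integral_const_mul, integral_add (Lp.memLp f).integrable_sq (hG' v).integrable_sq,
            integral_sub_right_eq_self (fun z => cut G z ^ 2) (σ, v)]
  rw [integral_integral_swap hint]
  refine integral_congr_ae (ae_of_all _ fun z => ?_)
  simp_rw [mul_left_comm (theta _), integral_const_mul]
  congr 1
  by_cases hs : z.1 - σ ∈ Ioc 0 (log 2)
  · simp only [cut, Prod.fst_sub, Prod.snd_sub, indicator_of_mem hs, neg_sub]
    rw [h _ _ (by linarith [hs.1]), ← integral_sub_right_eq_self _ z.2]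
    congr 1
    ext v
    rw [sub_sub_sub_cancel_right]
  · simp [cut, indicator_of_notMem hs]

/-- the profile of one layer -/
def FF (p : ℝ × ℂ) : ℝ := exp p.1 * phi (exp p.1 • p.2)

theorem FF_smooth : ContDiff ℝ ∞ FF :=
  contDiff_fst.exp.mul (phi_smooth.comp (contDiff_fst.exp.smul contDiff_snd))

theorem FF_eq_zero (s : ℝ) (z : ℂ) (hs : -1 < s) (hz : 1 < ‖z‖) : FF (s, z) = 0 := by
  have h1 : 1 / 4 ≤ exp s := by
    have h2 : exp (-1) ≤ exp s := exp_le_exp.2 hs.le
    have h3 := Real.exp_neg_one_gt_d9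
    linarith
  rw [FF, phi_eq_zero, mul_zero]
  rw [norm_smul, Real.norm_of_nonneg (exp_pos _).le]
  nlinarith

theorem memLp_FF : MemLp (cut FF) 2 volume := memLp_cut FF_smooth.continuous FF_eq_zero

/-- the kernel of the layer `j` at the point `x` -/
def kap (j : ℤ) (x : ℂ) : HH := tr (j * log 2, (2 : ℂ) ^ j * x) (memLp_FF.toLp _)

theorem continuous_kap (j : ℤ) : Continuous (kap j) :=
  (continuous_tr _).comp (continuous_const.prodMk (continuous_const.mul continuous_id))

theorem isKer_ker : IsKer ker := ⟨ker_smooth, ker_zero, ker_supp, ker_nonneg, ker_le_one⟩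

theorem inner_tr_tr (a b : ℝ × ℂ) : ⟪tr a (memLp_FF.toLp _), tr b (memLp_FF.toLp _)⟫ =
    ∫ z, cut FF (z - a) * cut FF (z - b) := by
  rw [inner_tr_toLp]
  refine integral_congr_ae ?_
  filter_upwards [coe_tr_toLp memLp_FF a] with z hz
  rw [hz]

theorem inner_kap (i j : ℤ) (x y : ℂ) :
    ⟪kap i x, kap j y⟫ = if i = j then layCov ker j x y else 0 := by
  rw [kap, kap, inner_tr_tr]
  have hl : 0 < log 2 := log_pos one_lt_two
  split_ifs with hij
  · subst hij
    rw [isKer_ker.layCov_eq_exp, ← integral_add_right_eq_self _ ((i * log 2, 0) : ℝ × ℂ)]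
    generalize (2 : ℂ) ^ i * x = X
    generalize (2 : ℂ) ^ i * y = Y
    have e : ∀ (z : ℝ × ℂ) (X : ℂ), z + (i * log 2, 0) - (i * log 2, X) = z - (0, X) := by
      intro z X
      ext <;> simp
    simp_rw [e]
    have hm : ∀ X : ℂ, MemLp (fun z => cut FF (z - (0, X))) 2 volume := fun X =>
      memLp_FF.comp_measurePreserving (measurePreserving_sub_right volume _)
    have i1 : Integrable (fun z => cut FF (z - (0, X)) * cut FF (z - (0, Y)))
        (volume.prod volume) := (hm X).integrable_mul (hm Y)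
    rw [Measure.volume_eq_prod, integral_prod _ i1,
      intervalIntegral.integral_of_le hl.le, ← integral_indicator measurableSet_Ioc]
    refine integral_congr_ae (ae_of_all _ fun s => ?_)
    by_cases hs : s ∈ Ioc 0 (log 2)
    · simp only [cut, Prod.fst_sub, Prod.snd_sub, sub_zero, indicator_of_mem hs, neg_sub, FF]
      exact integral_phi_mul_phi (exp_pos s) X Y
    · simp [cut, indicator_of_notMem hs]
  · refine integral_eq_zero_of_ae (ae_of_all _ fun z => ?_)
    by_contra hne
    have h1 : z.1 - i * log 2 ∈ Ioc 0 (log 2) :=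
      mem_of_indicator_ne_zero (left_ne_zero_of_mul hne)
    have h2 : z.1 - j * log 2 ∈ Ioc 0 (log 2) :=
      mem_of_indicator_ne_zero (right_ne_zero_of_mul hne)
    rcases lt_or_gt_of_ne hij with h | h
    · have h3 : (i : ℝ) + 1 ≤ j := by exact_mod_cast h
      nlinarith [h1.2, h2.1]
    · have h3 : (j : ℝ) + 1 ≤ i := by exact_mod_cast h
      nlinarith [h1.1, h2.2]

theorem exists_kap_density : ∃ g₀ : HH, ∀ (j : ℤ) (x : ℂ),
    kap j x = ∫ v, theta ((2 : ℂ) ^ j * x - v) • tr (j * log 2, v) g₀ := by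
  obtain ⟨G, hG, hG0, h⟩ := exists_theta_density FF_smooth FF_eq_zero
  exact ⟨(memLp_cut hG hG0).toLp _, fun j x => tr_eq_integral memLp_FF hG _ h _ _⟩

end LQ.Lay
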