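import Pool.Agent.Lib.MP_0d9445_pr.Lay.Gff
import Pool.Agent.Lib.MP_0d9445_pr.Lay.Hilb

/-! Layers, part 14: construction of the structure `Layers`. -/

open MeasureTheory ProbabilityTheory Set Filter Topology Real
open Pool.Agent.Lib.MP_0d9445_pr LQ.Gauss
open scoped ENNReal RealInnerProductSpace

noncomputable section

namespace LQ.Lay

/-- the layers of the white noise on `L²(ℝ × ℂ)` -/
theorem exists_pre : ∃ (eta : ℤ → Om HH → Fn) (Z : ℤ → Om HH → ℝ),
    Pre (wnP HH) wn ker kap eta Z := by
  borelize HH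
  obtain ⟨g₀, hg₀⟩ := exists_kap_density
  have h1 := fun j : ℤ => exists_version (wn_isIso (H := HH)) wn_meas
    (g := fun v : ℂ => tr (j * log 2, v) g₀)
    ((continuous_tr g₀).comp (continuous_const.prodMk continuous_id)) (C := ‖g₀‖)
    fun v => ((tr _).norm_map _).le
  choose η Z hη hZ hZ0 hver hlip hexp using h1
  refine ⟨fun j ω => resc (2 ^ j) 0 (η j ω), Z, wn_isIso, isKer_ker, inner_kap, continuous_kap,
    fun j => (continuous_resc _ _).measurable.comp (hη j), hZ, hZ0, fun j x => ?_,
    fun j ω ρ x y hx hy => ?_, fun a => ⟨_, ENNReal.ofReal_ne_top, fun j => hexp j a⟩⟩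
  · rw [hg₀]
    simpa [resc] using hver j (2 ^ j * x)
  · have hn : ∀ z : ℂ, ‖(2 : ℂ) ^ j * z‖ = 2 ^ j * ‖z‖ := fun z => by
      rw [norm_mul, norm_zpow, Complex.norm_two]
    have hp : (0 : ℝ) < 2 ^ j := zpow_pos two_pos j
    have h2 := hlip j ω (2 ^ j * ρ) (2 ^ j * x) (2 ^ j * y)
      (by rw [hn]; exact mul_le_mul_of_nonneg_left hx hp.le)
      (by rw [hn]; exact mul_le_mul_of_nonneg_left hy hp.le)
    rw [← mul_sub, hn] at h2
    simp only [resc, ContinuousMap.coe_mk, add_zero]
    exact h2.trans (le_of_eq (by ring))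

variable {H : Type*} {Ω : Type} [NormedAddCommGroup H] [InnerProductSpace ℝ H] [CompleteSpace H]
  [SecondCountableTopology H] [mΩ : MeasurableSpace Ω] {P : Measure Ω} {W : H → Ω → ℝ}
  {k : ℝ → ℝ} {kap : ℤ → ℂ → H} {eta : ℤ → Ω → Fn} {Z : ℤ → Ω → ℝ}

/-- the sigma-algebra generated by the layers with index in `S` -/
@[reducible] def gen (eta : ℤ → Ω → Fn) (S : Set ℤ) : MeasurableSpace Ω :=
  ⨆ j ∈ S, MeasurableSpace.comap (eta j) inferInstance

omit mΩ in
theorem measurable_gen (eta : ℤ → Ω → Fn) {S : Set ℤ} {j : ℤ} (hj : j ∈ S) :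
    Measurable[gen eta S] (eta j) := by
  rw [measurable_iff_comap_le]
  exact le_biSup (f := fun j => MeasurableSpace.comap (eta j) inferInstance) hj

namespace Pre

omit [CompleteSpace H] [SecondCountableTopology H] in
theorem iid (h : Pre P W k kap eta Z) : iIndepFun eta P :=
  cm_iIndepFun (h.iso.version_iIndepFun (S := fun _ : ℤ => ℂ) (f := kap)
    (X := fun j x ω => eta j ω x) h.ver fun s t hst x y => by rw [h.inner_kap, if_neg hst])

omit [CompleteSpace H] [SecondCountableTopology H] in
theorem indepFun_of_gen (h : Pre P W k kap eta Z) {S T : Set ℤ} (hST : Disjoint S T)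
    {α β : Type*} {mα : MeasurableSpace α} {mβ : MeasurableSpace β} {X : Ω → α} {Y : Ω → β}
    (hX : Measurable[gen eta S] X) (hY : Measurable[gen eta T] Y) : IndepFun X Y P := by
  rw [IndepFun_iff_Indep]
  exact indep_of_indep_of_le (indep_iSup_of_disjoint (fun j => (h.meas_eta j).comap_le)
    ((iIndepFun_iff_iIndep _ _ _).1 h.iid) hST) hX.comap_le hY.comap_le

omit [CompleteSpace H] [SecondCountableTopology H] in
theorem meas_resc (h : Pre P W k kap eta Z) (c : ℤ) (a b : ℂ) :
    Measurable fun ω n => resc a b (eta (n + c) ω) :=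
  measurable_pi_lambda _ fun _ => (continuous_resc _ _).measurable.comp (h.meas_eta _)

omit [CompleteSpace H] [SecondCountableTopology H] in
theorem map_resc (h : Pre P W k kap eta Z) (c : ℤ) (i : ℕ) (b : ℂ) :
    P.map (fun ω n => resc (dy c i) b (eta (n + c) ω)) = P.map (fun ω n => eta n ω) := by
  have hm : ∀ n, Measurable fun ω => resc (dy c i) b (eta (n + c) ω) := fun n =>
    (continuous_resc _ _).measurable.comp (h.meas_eta _)
  refine cm_family_map_eq hm h.meas_eta (h.iso.version_map_eq h.iso
    (f := fun p : ℤ × ℂ => kap (p.1 + c) (dy c i * p.2 + b)) (f' := fun p : ℤ × ℂ => kap p.1 p.2)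
    (X := fun p ω => resc (dy c i) b (eta (p.1 + c) ω) p.2) (X' := fun p ω => eta p.1 ω p.2)
    (fun p => (measurable_eval _).comp (hm p.1)) (fun p => h.ver _ _)
    (fun p => (measurable_eval _).comp (h.meas_eta _)) (fun p => h.ver _ _) fun p q => ?_)
  rw [h.inner_kap, h.inner_kap, h.ker.layCov_dy]
  simp

theorem range (h : Pre P W k kap eta Z) (n : ℤ) (ι : Type) (A : ι → Set ℂ)
    (hA : ∀ i j, i ≠ j → ∀ x ∈ A i, ∀ y ∈ A j, (2 : ℝ) ^ (-n) / 2 ≤ ‖x - y‖) :
    iIndep (fun i => sigmaOn (fun ω => fine (fun j => eta j ω) n) (A i)) P := by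
  have h1 := h.iso.version_iIndepFun
    (S := fun i => {p : ℝ × ℂ // Metric.closedBall p.2 (exp (-p.1)) ⊆ A i})
    (f := fun _ p => KK kap n p) (X := fun _ p ω => fine (fun j => eta j ω) n p)
    (fun _ p => h.fine_version n p) fun s t hst p q =>
      h.inner_KK_KK_eq_zero fun x hx y hy => hA s t hst x (p.2 hx) y (q.2 hy)
  rw [iIndepFun_iff_iIndep] at h1
  convert h1 using 2 with i
  rw [MeasurableSpace.comap_process_pi, sigmaOn, iSup_subtype']

/-- the structure `Layers` built from the abstract data -/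
def toLayers (h : Pre P W k kap eta Z) : Layers where
  Ω := Ω
  P := P
  prob := h.prob
  eta := eta
  H := fun n ω => fine (fun j => eta j ω) n
  ginf := fun ω => infra fun j => eta j ω
  meas_eta := h.meas_eta
  meas_H := fun n => measurable_fine n fun j _ => h.meas_eta j
  meas_ginf := measurable_infra' fun j _ => h.meas_eta j
  step := fun n => (h.ae_summable_circ n).mono fun _ hω => fine_step (e := fun j => eta j _) hω
  iid := h.iid
  indep := fun n => h.indepFun_of_gen (Iio_disjoint_Ici (le_refl n))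
    (@measurable_pi_lambda _ _ _ (gen eta (Iio n)) _ _ fun j => measurable_gen eta j.2)
    (measurable_fine n fun _ hj => measurable_gen eta hj)
  indep_ginf := fun n => h.indepFun_of_gen (Iio_disjoint_Ici (le_refl (n : ℤ)))
    ((measurable_infra' (e := eta) fun j hj =>
      measurable_gen eta (S := Iio (n : ℤ)) (mem_Iio.2 (by omega))).prodMk
      (@measurable_pi_lambda _ _ _ (gen eta (Iio (n : ℤ))) _ _
        fun j : Iio (n : ℤ) => measurable_gen eta j.2))
    (measurable_fine n fun _ hj => measurable_gen eta hj)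
  indep_ginf_eta := h.indepFun_of_gen (Iio_disjoint_Ici (le_refl (0 : ℤ)))
    (measurable_infra' fun _ hj => measurable_gen eta hj)
    (@measurable_pi_lambda _ _ _ (gen eta (Ici 0)) _ _ fun j : ℕ =>
      measurable_gen eta (Int.natCast_nonneg j))
  ginf_zero := fun _ => infra_zero _
  ginf_lim := h.ae_summable_infra.mono fun _ hω => tendsto_infra (e := fun j => eta j _) hω
  range := h.range
  cov := fun c i b => by
    have hΨ : Measurable fun e : ℤ → Fn => (e, fun n => fine e n) :=
      measurable_id.prodMk (measurable_pi_lambda _ fun n =>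
        measurable_fine (e := fun j (e : ℤ → Fn) => e j) n fun j _ => measurable_pi_apply j)
    have h1 := congrArg (Measure.map fun e : ℤ → Fn => (e, fun n => fine e n)) (h.map_resc c i b)
    rw [Measure.map_map hΨ (h.meas_resc c _ b), Measure.map_map hΨ (measurable_pi_lambda _ h.meas_eta)] at h1
    simp_rw [fine_resc (dy_ne_zero c i)]
    exact h1
  shape_law := fun n i b => by
    have h1 := congrArg (Measure.map infra) (h.map_resc n i b)
    rw [Measure.map_map measurable_infra (h.meas_resc n _ b),
      Measure.map_map measurable_infra (measurable_pi_lambda _ h.meas_eta)] at h1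
    refine Eq.trans (Measure.map_congr ?_) h1
    filter_upwards [h.ae_summable_infra] with ω hω
    exact shape_infra (e := fun j => eta j ω) hω n _ b
  gauss := fun j y => by
    rw [Measure.map_congr (h.ver j y), h.iso.law]
    congr 1
    refine NNReal.eq ?_
    rw [Real.coe_toNNReal _ (log_nonneg one_le_two), NNReal.coe_pow, coe_nnnorm,
      ← real_inner_self_eq_norm_sq, h.inner_kap, if_pos rfl, h.ker.layCov_self]
  lipexp := h.lipexp
  lipexp_ginf := h.lipexp_infra
  gff := h.isGFF
  k := k
  k_smooth := h.ker.smooth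
  k_zero := h.ker.zero
  k_supp := h.ker.supp
  k_le := fun s => abs_le.2 ⟨by linarith [h.ker.nonneg s], h.ker.le_one s⟩
  k_nonneg := fun s _ => h.ker.nonneg s
  gproc := h.iso.version_isGaussianProcess
    (f := Sum.elim (fun p : ℤ × ℂ => kap p.1 p.2) fun p : ℤ × (ℝ × ℂ) => KK kap p.1 p.2)
    fun x => by
      cases x with
      | inl p => exact h.ver p.1 p.2
      | inr p => exact h.fine_version p.1 p.2
  mean_eta := fun j x => by rw [integral_congr_ae (h.ver j x), h.iso.integral_eq_zero]
  mean_H := fun n p => by rw [integral_congr_ae (h.fine_version n p), h.iso.integral_eq_zero]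
  cov_eta := fun i j x y => by rw [h.iso.version_cov (h.ver i x) (h.ver j y), h.inner_kap]
  cov_H_eta := fun n p j y => by
    rw [h.iso.version_cov (h.fine_version n p) (h.ver j y), h.inner_KK_kap]
  cov_H := fun p q => by
    rw [h.iso.version_cov (h.fine_version 0 p) (h.fine_version 0 q)]
    simpa only [zero_add] using h.hasSum_inner_KK_KK 0 p q
  var_H := h.var_fine

end Pre

end LQ.Lay

/-- The layer decomposition exists. -/
theorem Pool.Agent.Lib.MP_0d9445_pr.exists_layers : Nonempty Layers := by
  obtain ⟨eta, Z, h⟩ := LQ.Lay.exists_pre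
  exact ⟨h.toLayers⟩
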