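import Pool.Agent.Lib.MP_0d9445_pr.Layers

/-! Random continuous functions: the Borel sigma-algebra of `C(X, ℝ)` is generated by the
evaluations; measurability, a.e. equality, laws and independence are read off the evaluations. -/

open MeasureTheory ProbabilityTheory Set Filter Topology
open Pool.Agent.Lib.MP_0d9445_pr
open scoped ENNReal

noncomputable section

namespace LQ.Lay

variable {X Ω Ω' : Type*} [TopologicalSpace X] [SecondCountableTopology X]
  {mΩ : MeasurableSpace Ω} {mΩ' : MeasurableSpace Ω'}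

omit [SecondCountableTopology X] in
theorem measurable_eval (x : X) : Measurable fun f : C(X, ℝ) => f x :=
  (continuous_eval_const x).measurable

omit [SecondCountableTopology X] in
theorem measurable_coe_cm : Measurable fun (f : C(X, ℝ)) (x : X) => f x :=
  measurable_pi_lambda _ measurable_eval

/-- continuous functions that agree a.e. at each point agree a.e. -/
theorem cm_ae_eq {P : Measure Ω} {F G : Ω → C(X, ℝ)} (h : ∀ x, ∀ᵐ ω ∂P, F ω x = G ω x) :
    F =ᵐ[P] G := by
  obtain ⟨S, hSc, hS⟩ := TopologicalSpace.exists_countable_dense X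
  filter_upwards [(ae_ball_iff hSc).2 fun x _ => h x] with ω hω
  exact ContinuousMap.ext fun x =>
    congrFun (Continuous.ext_on hS (F ω).continuous (G ω).continuous hω) x

omit [SecondCountableTopology X] in
theorem mapsTo_iff_dense {K : Set X} (hK : IsCompact K) {S : Set X} (hSK : S ⊆ K)
    (hS : K ⊆ closure S) {U : Set ℝ} (hU : IsOpen U) (hne : Uᶜ.Nonempty) (f : C(X, ℝ)) :
    MapsTo f K U ↔ ∃ n : ℕ, ∀ x ∈ S, 1 / ((n : ℝ) + 1) ≤ Metric.infDist (f x) Uᶜ := by
  have hc : Continuous fun x => Metric.infDist (f x) Uᶜ :=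
    (Metric.continuous_infDist_pt _).comp f.continuous
  constructor
  · intro h
    rcases K.eq_empty_or_nonempty with rfl | hKne
    · exact ⟨0, fun x hx => (hSK hx).elim⟩
    obtain ⟨x₀, hx₀, hmin⟩ := hK.exists_isMinOn hKne hc.continuousOn
    have hpos : 0 < Metric.infDist (f x₀) Uᶜ :=
      (hU.isClosed_compl.notMem_iff_infDist_pos hne).1 (not_not.2 (h hx₀))
    obtain ⟨n, hn⟩ := exists_nat_one_div_lt hpos
    exact ⟨n, fun x hx => hn.le.trans (hmin (hSK hx))⟩
  · rintro ⟨n, hn⟩ x hx
    have h1 : 1 / ((n : ℝ) + 1) ≤ Metric.infDist (f x) Uᶜ :=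
      (isClosed_le continuous_const hc).closure_subset_iff.2 hn (hS hx)
    by_contra hxU
    rw [Metric.infDist_zero_of_mem hxU] at h1
    exact absurd h1 (not_le.2 Nat.one_div_pos_of_nat)

variable [LocallyCompactSpace X]

theorem measurable_cm_iff {F : Ω → C(X, ℝ)} : Measurable F ↔ ∀ x, Measurable fun ω => F ω x := by
  refine ⟨fun h x => (measurable_eval x).comp h, fun h => ?_⟩
  have e : (cmMS : MeasurableSpace C(X, ℝ)) = _ :=
    borel_eq_generateFrom_of_subbasis ContinuousMap.compactOpen_eq
  rw [e]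
  refine measurable_generateFrom ?_
  rintro _ ⟨K, hK, U, hU, rfl⟩
  rcases Uᶜ.eq_empty_or_nonempty with hne | hne
  · rw [compl_empty_iff.1 hne]
    simp [mapsTo_univ]
  obtain ⟨S, hSK, hSc, hS⟩ : ∃ S ⊆ K, S.Countable ∧ K ⊆ closure S := by
    obtain ⟨T, hTc, hT⟩ := TopologicalSpace.exists_countable_dense K
    exact ⟨Subtype.val '' T, by rintro _ ⟨x, -, rfl⟩; exact x.2, hTc.image _,
      Subtype.dense_iff.1 hT⟩
  have e2 : F ⁻¹' {f | MapsTo f K U} =
      ⋃ n : ℕ, ⋂ x ∈ S, {ω | 1 / ((n : ℝ) + 1) ≤ Metric.infDist (F ω x) Uᶜ} := by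
    ext ω
    simp [mapsTo_iff_dense hK hSK hS hU hne]
  rw [e2]
  exact MeasurableSet.iUnion fun n => MeasurableSet.biInter hSc fun x _ =>
    measurableSet_le measurable_const ((Metric.continuous_infDist_pt _).measurable.comp (h x))

theorem cmMS_eq_comap : (cmMS : MeasurableSpace C(X, ℝ)) =
    MeasurableSpace.comap (fun (f : C(X, ℝ)) (x : X) => f x) MeasurableSpace.pi := by
  refine le_antisymm ?_ measurable_coe_cm.comap_le
  have h := (measurable_cm_iff (mΩ := MeasurableSpace.comap (fun (f : C(X, ℝ)) (x : X) => f x)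
    MeasurableSpace.pi) (F := id)).2 fun x =>
      (measurable_pi_apply x).comp (comap_measurable (fun (f : C(X, ℝ)) (x : X) => f x))
  simpa using h.comap_le

theorem comap_cm (F : Ω → C(X, ℝ)) : MeasurableSpace.comap F cmMS =
    MeasurableSpace.comap (fun ω x => F ω x) MeasurableSpace.pi := by
  rw [cmMS_eq_comap, MeasurableSpace.comap_comp]
  rfl

omit [SecondCountableTopology X] [LocallyCompactSpace X] in
theorem measure_eq_of_map_comap {α β : Type*} {mα : MeasurableSpace α} {mβ : MeasurableSpace β}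
    {e : α → β} (he : mα = mβ.comap e) {μ ν : Measure α} (h : μ.map e = ν.map e) : μ = ν := by
  have hm : Measurable e := by rw [measurable_iff_comap_le, he]
  ext s hs
  rw [he] at hs
  obtain ⟨t, ht, rfl⟩ := hs
  rw [← Measure.map_apply hm ht, h, Measure.map_apply hm ht]

/-- the law of a family of random continuous functions is given by the law of the evaluations -/
theorem cm_family_map_eq {ι : Type*} {P : Measure Ω} {P' : Measure Ω'} {F : ι → Ω → C(X, ℝ)}
    {G : ι → Ω' → C(X, ℝ)} (hF : ∀ i, Measurable (F i)) (hG : ∀ i, Measurable (G i))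
    (h : P.map (fun ω (p : ι × X) => F p.1 ω p.2) = P'.map (fun ω (p : ι × X) => G p.1 ω p.2)) :
    P.map (fun ω i => F i ω) = P'.map (fun ω i => G i ω) := by
  let e : (ι → C(X, ℝ)) → (ι × X → ℝ) := fun f p => f p.1 p.2
  have hm : Measurable e :=
    measurable_pi_lambda _ fun p => (measurable_eval p.2).comp (measurable_pi_apply p.1)
  have he : (MeasurableSpace.pi : MeasurableSpace (ι → C(X, ℝ))) = MeasurableSpace.pi.comap e := by
    refine le_antisymm ?_ hm.comap_le
    have h1 : Measurable[MeasurableSpace.pi.comap e] (id : (ι → C(X, ℝ)) → ι → C(X, ℝ)) := by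
      let _ : MeasurableSpace (ι → C(X, ℝ)) := MeasurableSpace.pi.comap e
      exact @measurable_pi_lambda _ _ _ _ _ _ fun i => measurable_cm_iff.2 fun x =>
        (measurable_pi_apply (i, x)).comp (comap_measurable e)
    simpa using h1.comap_le
  refine measure_eq_of_map_comap he ?_
  rw [Measure.map_map hm (measurable_pi_lambda _ hF), Measure.map_map hm (measurable_pi_lambda _ hG)]
  exact h

theorem cm_map_eq {P : Measure Ω} {P' : Measure Ω'} {F : Ω → C(X, ℝ)} {G : Ω' → C(X, ℝ)}
    (hF : Measurable F) (hG : Measurable G)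
    (h : P.map (fun ω x => F ω x) = P'.map (fun ω x => G ω x)) : P.map F = P'.map G := by
  refine measure_eq_of_map_comap cmMS_eq_comap ?_
  rw [Measure.map_map measurable_coe_cm hF, Measure.map_map measurable_coe_cm hG]
  exact h

theorem cm_iIndepFun {ι : Type*} {P : Measure Ω} {F : ι → Ω → C(X, ℝ)}
    (h : iIndepFun (fun i ω x => F i ω x) P) : iIndepFun F P := by
  rw [iIndepFun_iff_iIndep] at h ⊢
  simpa only [comap_cm] using h

theorem cm_indepFun {Y : Type*} [TopologicalSpace Y] [SecondCountableTopology Y]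
    [LocallyCompactSpace Y] {P : Measure Ω} {F : Ω → C(X, ℝ)} {G : Ω → C(Y, ℝ)}
    (h : IndepFun (fun ω x => F ω x) (fun ω y => G ω y) P) : IndepFun F G P := by
  rw [IndepFun_iff_Indep] at h ⊢
  simpa only [comap_cm] using h

/-- joint measurability of a random continuous function -/
theorem measurable_cm_apply [MeasurableSpace X] [OpensMeasurableSpace X] {F : Ω → C(X, ℝ)}
    {x : Ω → X} (hF : Measurable F) (hx : Measurable x) : Measurable fun ω => F ω (x ω) :=
  continuous_eval.measurable.comp (hF.prodMk hx)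

theorem lowerSemicontinuous_lip (A : Set ℂ) : LowerSemicontinuous fun g : Fn => CR.lip g A := by
  refine lowerSemicontinuous_biSup fun x _ => lowerSemicontinuous_biSup fun y _ => ?_
  rcases eq_or_ne x y with rfl | hxy
  · simpa using lowerSemicontinuous_const
  · exact (ENNReal.continuous_div_const _ (edist_pos.2 hxy).ne').comp
      ((continuous_eval_const x).edist (continuous_eval_const y)) |>.lowerSemicontinuous

theorem measurable_lip (A : Set ℂ) : Measurable fun g : Fn => CR.lip g A :=
  (lowerSemicontinuous_lip A).measurable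

theorem lip_le {g : Fn} {A : Set ℂ} {L : ℝ}
    (h : ∀ x ∈ A, ∀ y ∈ A, |g x - g y| ≤ L * ‖x - y‖) : CR.lip g A ≤ ENNReal.ofReal L := by
  refine iSup₂_le fun x hx => iSup₂_le fun y hy => ENNReal.div_le_of_le_mul ?_
  rw [edist_dist, edist_dist, mul_comm, ← ENNReal.ofReal_mul dist_nonneg, Real.dist_eq,
    dist_eq_norm, mul_comm]
  exact ENNReal.ofReal_le_ofReal (h x hx y hy)

end LQ.Lay
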