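import Pool.Agent.Lib.MP_0d9445_pr.Lay.Frull

/-! Layers, part 4: circle averages. -/

open MeasureTheory Set Filter Topology Real
open Pool.Agent.Lib.MP_0d9445_pr

noncomputable section

namespace LQ.Lay

/-- the field of circle averages of a continuous function -/
def circ (g : Fn) : Field := ⟨avg g, continuous_avg g⟩

theorem addFn_eq (H : Field) (g : Fn) : addFn H g = H + circ g := rfl
theorem continuous_circ : Continuous circ := by
  refine ContinuousMap.continuous_of_continuous_uncurry _ ?_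
  have : Continuous fun q : Fn × (ℝ × ℂ) =>
      ∫ θ in (0 : ℝ)..2 * π, q.1 (circleMap q.2.2 (exp (-q.2.1)) θ) := by
    unfold circleMap
    exact intervalIntegral.continuous_parametric_intervalIntegral_of_continuous' (by fun_prop) _ _
  exact this.const_smul (2 * π)⁻¹
theorem circ_resc {a : ℂ} (ha : a ≠ 0) (b : ℂ) (g : Fn) :
    circ (resc a b g) = affine 0 a b (circ g) := by
  ext p
  have h0 : 0 < ‖a‖ := norm_pos_iff.2 ha
  have h1 : exp (-(p.1 - log ‖a‖)) = ‖a‖ * exp (-p.1) := by
    rw [neg_sub, sub_eq_add_neg, exp_add, exp_log h0]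
  have h2 : ∀ θ : ℝ, a * circleMap p.2 (exp (-p.1)) θ + b =
      circleMap (a * p.2 + b) (‖a‖ * exp (-p.1)) (θ + a.arg) := fun θ => by
    have h3 := Complex.norm_mul_exp_arg_mul_I a
    unfold circleMap
    rw [Complex.ofReal_add, add_mul, Complex.exp_add, Complex.ofReal_mul]
    linear_combination (-(exp (-p.1) : ℝ) * Complex.exp (θ * Complex.I)) * h3
  show circleAverage (fun z => g (a * z + b)) p.2 (exp (-p.1)) =
    circleAverage g (a * p.2 + b) (exp (-(p.1 - log ‖a‖))) + 0 * log ‖a‖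
  rw [zero_mul, add_zero, h1, circleAverage_eq_integral_add (f := g) a.arg, circleAverage_def]
  simp only [h2]

theorem circ_affine_eq (a b : ℂ) (H : Field) : affine 0 a b H =
    H.comp ⟨fun p : ℝ × ℂ => (p.1 - log ‖a‖, a * p.2 + b), by fun_prop⟩ := by
  ext p
  show H _ + 0 * log ‖a‖ = _
  rw [zero_mul, add_zero]
  rfl

theorem circ_affine_cont (a b : ℂ) : Continuous (affine 0 a b) := by
  rw [show affine 0 a b = _ from funext (circ_affine_eq a b)]
  exact ContinuousMap.continuous_precomp _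

/-- `affine 0 a b` as an additive map -/
def circ_affineHom (a b : ℂ) : Field →+ Field where
  toFun := affine 0 a b
  map_zero' := by rw [circ_affine_eq, ContinuousMap.zero_comp]
  map_add' H K := by simp only [circ_affine_eq, ContinuousMap.add_comp]

/-- `affine 0 a b` commutes with every series -/
theorem affine_tsum {a : ℂ} (ha : a ≠ 0) (b : ℂ) (F : ℕ → Field) :
    affine 0 a b (∑' j, F j) = ∑' j, affine 0 a b (F j) := by
  refine Function.LeftInverse.map_tsum (g := circ_affineHom a b)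
    (g' := circ_affineHom a⁻¹ (-(a⁻¹ * b))) F (circ_affine_cont a b) (circ_affine_cont _ _)
    fun H => ?_
  ext p
  show H (p.1 - log ‖a⁻¹‖ - log ‖a‖, a * (a⁻¹ * p.2 + -(a⁻¹ * b)) + b) + 0 * log ‖a‖ +
    0 * log ‖a⁻¹‖ = H p
  rw [zero_mul, zero_mul, add_zero, add_zero, norm_inv, log_inv]
  congr 1
  refine Prod.ext ?_ ?_
  · simp
  · field_simp
    ring
/-- averages of a Lipschitz function over two circles -/
theorem abs_avg_sub_avg_le {g : ℂ → ℝ} (hg : Continuous g) {L ρ : ℝ} (hL : 0 ≤ L)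
    (h : ∀ x y, ‖x‖ ≤ ρ → ‖y‖ ≤ ρ → |g x - g y| ≤ L * ‖x - y‖) {p q : ℝ × ℂ}
    (hp : ‖p.2‖ + exp (-p.1) ≤ ρ) (hq : ‖q.2‖ + exp (-q.1) ≤ ρ) :
    |avg g p - avg g q| ≤ L * (‖p.2 - q.2‖ + |exp (-p.1) - exp (-q.1)|) := by
  have h1 : ∀ (c : ℂ) (R θ : ℝ), 0 ≤ R → ‖circleMap c R θ‖ ≤ ‖c‖ + R := fun c R θ hR => by
    unfold circleMap
    refine (norm_add_le _ _).trans (le_of_eq ?_)
    rw [norm_mul, Complex.norm_exp_ofReal_mul_I, mul_one, Complex.norm_real,
      Real.norm_of_nonneg hR]
  have h2 : ∀ (c : ℂ) (R : ℝ), IntervalIntegrable (fun θ => g (circleMap c R θ)) volume 0 (2 * π) :=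
    fun c R => (hg.comp (continuous_circleMap c R)).intervalIntegrable _ _
  have h3 := intervalIntegral.norm_integral_le_of_norm_le_const (a := 0) (b := 2 * π)
    (f := fun θ => g (circleMap p.2 (exp (-p.1)) θ) - g (circleMap q.2 (exp (-q.1)) θ))
    (C := L * (‖p.2 - q.2‖ + |exp (-p.1) - exp (-q.1)|)) fun θ _ => by
      refine (h _ _ ((h1 _ _ θ (exp_pos _).le).trans hp)
        ((h1 _ _ θ (exp_pos _).le).trans hq)).trans (mul_le_mul_of_nonneg_left ?_ hL)
      have e : circleMap p.2 (exp (-p.1)) θ - circleMap q.2 (exp (-q.1)) θ =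
          (p.2 - q.2) + ((exp (-p.1) - exp (-q.1) : ℝ) : ℂ) * Complex.exp (θ * Complex.I) := by
        unfold circleMap
        rw [Complex.ofReal_sub]
        ring
      rw [e]
      refine (norm_add_le _ _).trans (le_of_eq ?_)
      rw [norm_mul, Complex.norm_exp_ofReal_mul_I, mul_one, Complex.norm_real, Real.norm_eq_abs]
  have h4 : 0 < 2 * π := by positivity
  rw [intervalIntegral.integral_sub (h2 _ _) (h2 _ _), sub_zero, abs_of_pos h4,
    Real.norm_eq_abs] at h3
  unfold avg
  rw [circleAverage_def, circleAverage_def, smul_eq_mul, smul_eq_mul, ← mul_sub, abs_mul,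
    abs_of_pos (inv_pos.2 h4), inv_mul_le_iff₀ h4]
  exact h3.trans (mul_comm _ _).le

theorem circ_far {d r t : ℝ} (hd : 0 ≤ d) (hr : 0 ≤ r) (ht : |t| ≤ π) :
    r * (|t| / π) ≤ ‖(d : ℂ) - r * Complex.exp (t * Complex.I)‖ := by
  have h1 : |t| / π ≤ |sin (t / 2)| := by
    have := mul_abs_le_abs_sin (x := t / 2) (by rw [abs_div, abs_two]; linarith)
    rw [abs_div, abs_two] at this
    refine le_trans (le_of_eq ?_) this
    ring
  refine (mul_le_mul_of_nonneg_left h1 hr).trans (abs_le_of_sq_le_sq' ?_ (norm_nonneg _)).2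
  have h2 : sin (t / 2) ^ 2 = 1 / 2 - cos t / 2 := by
    rw [sin_sq_eq_half_sub, mul_div_cancel₀ _ two_ne_zero]
  have h3 := sin_sq_add_cos_sq t
  have h4 : ‖(d : ℂ) - r * Complex.exp (t * Complex.I)‖ ^ 2 =
      (d - r * cos t) ^ 2 + (r * sin t) ^ 2 := by
    rw [Complex.sq_norm, Complex.normSq_apply]
    simp only [Complex.sub_re, Complex.sub_im, Complex.ofReal_re, Complex.ofReal_im,
      Complex.re_ofReal_mul, Complex.im_ofReal_mul, Complex.exp_ofReal_mul_I_re,
      Complex.exp_ofReal_mul_I_im]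
    ring
  have h5 : (r * sin t) ^ 2 = r ^ 2 * (1 - cos t ^ 2) := by
    rw [mul_pow, ← h3]
    ring
  rw [h4, mul_pow, sq_abs, h2, h5]
  have h6 := neg_one_le_cos t
  have h7 := cos_le_one t
  generalize cos t = u at h6 h7
  rcases le_total u 0 with hu | hu
  · nlinarith [mul_nonneg (mul_nonneg hd hr) (neg_nonneg.2 hu), sq_nonneg d,
      mul_nonneg (sq_nonneg r) (by linarith : 0 ≤ 1 + u)]
  · nlinarith [sq_nonneg (d - r * u),
      mul_nonneg (sq_nonneg r) (mul_nonneg (by linarith : 0 ≤ 1 - u) (by linarith : 0 ≤ 1 + 2 * u))]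

/-- a circle of radius `r` spends a fraction at most `δ / r` of its length within distance `δ`
of a point -/
theorem avg_le_of_supp {f : ℂ → ℝ} (hf : Continuous f) {M δ : ℝ} (hM : 0 ≤ M) (hδ : 0 < δ)
    {x : ℂ} (h1 : ∀ y, f y ≤ M) (h2 : ∀ y, δ ≤ ‖x - y‖ → f y ≤ 0) (q : ℝ × ℂ) :
    avg f q ≤ M * (δ * exp q.1) := by
  have h4 : 0 < 2 * π := by positivity
  obtain ⟨w, hw⟩ : ∃ w, w = π * (δ * exp q.1) := ⟨_, rfl⟩
  have hw0 : 0 < w := by rw [hw]; positivity
  have hI : Integrable ((Ioo (π - w) (π + w)).indicator fun _ : ℝ => M) :=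
    (integrableOn_const (by simp)).integrable_indicator measurableSet_Ioo
  unfold avg
  rw [circleAverage_eq_integral_add ((x - q.2).arg - π), smul_eq_mul, inv_mul_le_iff₀ h4]
  refine (intervalIntegral.integral_mono_on h4.le
    ((hf.comp ((continuous_circleMap _ _).comp (by fun_prop))).intervalIntegrable _ _)
    hI.intervalIntegrable fun θ hθ => ?_).trans ?_
  · by_cases hm : θ ∈ Ioo (π - w) (π + w)
    · rw [indicator_of_mem hm]
      exact h1 _
    · rw [indicator_of_notMem hm]
      refine h2 _ ?_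
      have e1 : w ≤ |θ - π| := by
        by_contra hh
        have := abs_lt.1 (not_le.1 hh)
        exact hm ⟨by linarith [this.1], by linarith [this.2]⟩
      have e2 := circ_far (norm_nonneg (x - q.2)) (exp_pos (-q.1)).le (t := θ - π)
        (abs_le.2 ⟨by linarith [hθ.1], by linarith [hθ.2]⟩)
      have e3 : x - circleMap q.2 (exp (-q.1)) (θ + ((x - q.2).arg - π)) =
          ((‖x - q.2‖ : ℝ) - (exp (-q.1) : ℝ) * Complex.exp ((θ - π : ℝ) * Complex.I)) *
            Complex.exp ((x - q.2).arg * Complex.I) := by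
        have h3 := Complex.norm_mul_exp_arg_mul_I (x - q.2)
        unfold circleMap
        rw [show θ + ((x - q.2).arg - π) = (θ - π) + (x - q.2).arg by ring, Complex.ofReal_add,
          add_mul, Complex.exp_add]
        linear_combination -h3
      rw [Function.comp_apply, e3, norm_mul, Complex.norm_exp_ofReal_mul_I, mul_one]
      refine le_trans ?_ e2
      have e4 : δ = exp (-q.1) * (w / π) := by
        rw [hw, exp_neg]
        field_simp
      rw [e4]
      gcongr
  · rw [intervalIntegral.integral_of_le h4.le]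
    refine (setIntegral_le_integral hI (ae_of_all _ fun θ =>
      indicator_nonneg (fun _ _ => hM) θ)).trans (le_of_eq ?_)
    rw [integral_indicator_const _ measurableSet_Ioo, volume_real_Ioo_of_le (by linarith),
      smul_eq_mul, hw]
    ring
theorem avg_log (x : ℂ) (q : ℝ × ℂ) :
    avg (fun y => log ‖x - y‖) q = log (max ‖x - q.2‖ (exp (-q.1))) := by
  have hR := exp_pos (-q.1)
  unfold avg
  simp only [norm_sub_rev x]
  rw [circleAverage_log_norm_sub_const_eq_log_radius_add_posLog hR.ne']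
  generalize exp (-q.1) = R at hR
  have hd := norm_nonneg (q.2 - x)
  generalize ‖q.2 - x‖ = d at hd
  rcases le_total d R with h | h
  · rw [max_eq_right h, (posLog_eq_zero_iff _).2, add_zero]
    rw [abs_of_nonneg (by positivity)]
    exact inv_mul_le_one_of_le₀ h hR.le
  · have h1 : 1 ≤ R⁻¹ * d := by rwa [le_inv_mul_iff₀ hR, mul_one]
    rw [max_eq_left h, posLog_eq_log (h1.trans (le_abs_self _)),
      log_mul (inv_pos.2 hR).ne' (hR.trans_le h).ne', log_inv]
    ring

end LQ.Lay
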