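import Pool.Agent.Lib.MP_0d9445_pr.Lay.Circ

/-! Layers, part 5: double circle averages of the layer covariances. -/

open MeasureTheory Set Filter Topology Real
open Pool.Agent.Lib.MP_0d9445_pr

noncomputable section

namespace LQ.Lay

variable {k : ℝ → ℝ}

theorem cs_int {f : ℂ → ℝ} (hf : Continuous f) (c : ℂ) (R : ℝ) : CircleIntegrable f c R :=
  (hf.comp (continuous_circleMap c R)).intervalIntegrable 0 (2 * π)

theorem cs_int_log (x c : ℂ) (R : ℝ) : CircleIntegrable (fun y => log ‖x - y‖) c R := by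
  simpa only [norm_sub_rev x] using circleIntegrable_log_norm_sub_const (a := x) (c := c) R

theorem cs_cont {F : ℂ → ℂ → ℝ} (hF : Continuous fun p : ℂ × ℂ => F p.1 p.2) (q : ℝ × ℂ) :
    Continuous fun x => avg (fun y => F x y) q := by
  have : Continuous fun x : ℂ => ∫ θ in (0 : ℝ)..2 * π, F x (circleMap q.2 (exp (-q.1)) θ) :=
    intervalIntegral.continuous_parametric_intervalIntegral_of_continuous'
      (f := fun x θ => F x (circleMap q.2 (exp (-q.1)) θ))
      (hF.comp (continuous_fst.prodMk ((continuous_circleMap _ _).comp continuous_snd))) _ _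
  exact this.const_smul (2 * π)⁻¹

theorem cs_cont_log (q : ℝ × ℂ) : Continuous fun x : ℂ => log (max ‖x - q.2‖ (exp (-q.1))) :=
  Continuous.log (by fun_prop) fun x => (lt_max_of_lt_right (exp_pos _)).ne'

theorem cs_cont_log1 : Continuous fun x : ℂ => log (max ‖x‖ 1) :=
  Continuous.log (by fun_prop) fun x => (lt_max_of_lt_right one_pos).ne'

theorem cs_avg3 {f g : ℂ → ℝ} (c : ℝ) (q : ℝ × ℂ) (hf : CircleIntegrable f q.2 (exp (-q.1)))
    (hg : CircleIntegrable g q.2 (exp (-q.1))) :
    avg (fun y => -f y + c + g y) q = -avg f q + c + avg g q := by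
  have e : (fun y => -f y + c + g y) = fun y => (c + g y) - f y := by
    funext y
    ring
  have h1 : CircleIntegrable (fun y => c + g y) q.2 (exp (-q.1)) :=
    (circleIntegrable_const c _ _).add hg
  unfold avg
  rw [e, circleAverage_fun_sub h1 hf, circleAverage_fun_add (circleIntegrable_const c _ _) hg,
    circleAverage_const]
  ring

theorem IsKer.continuous_avg_layCov (hk : IsKer k) (j : ℤ) (q : ℝ × ℂ) :
    Continuous fun x => avg (fun y => layCov k j x y) q :=
  cs_cont (hk.continuous_layCov j) q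

theorem IsKer.avg_layCov_le (hk : IsKer k) (j : ℤ) (x : ℂ) (q : ℝ × ℂ) :
    avg (fun y => layCov k j x y) q ≤ (2 : ℝ) ^ (-j) * exp q.1 := by
  have h2 : (0 : ℝ) < 2 ^ (-j) := zpow_pos two_pos _
  have hc : Continuous fun y => layCov k j x y :=
    (hk.continuous_layCov j).comp (continuous_const.prodMk continuous_id)
  have hl : (0 : ℝ) ≤ log 2 := log_nonneg one_le_two
  have hl1 : log 2 ≤ 1 := by
    have := log_le_sub_one_of_pos (two_pos : (0 : ℝ) < 2)
    linarith
  have h := avg_le_of_supp hc hl (half_pos h2) (x := x) (fun y => hk.layCov_le j x y)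
    (fun y hy => (hk.layCov_eq_zero hy).le) q
  have h3 : 0 < (2 : ℝ) ^ (-j) * exp q.1 := mul_pos h2 (exp_pos _)
  refine h.trans ?_
  have e : (2 : ℝ) ^ (-j) / 2 * exp q.1 = (2 : ℝ) ^ (-j) * exp q.1 / 2 := by ring
  rw [e]
  nlinarith

theorem cs_cont_DD (hk : IsKer k) : Continuous fun p : ℂ × ℂ => DD k ‖p.1 - p.2‖ :=
  hk.continuous_DD.comp (by fun_prop)

/-- the inner average -/
theorem cs_inner (hk : IsKer k) (x : ℂ) (q : ℝ × ℂ) :
    HasSum (fun j : ℕ => avg (fun y => layCov k j x y) q)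
      (-log (max ‖x - q.2‖ (exp (-q.1))) + c0 k + avg (fun y => DD k ‖x - y‖) q) := by
  have hD : CircleIntegrable (fun y => DD k ‖x - y‖) q.2 (exp (-q.1)) :=
    cs_int ((cs_cont_DD hk).comp (continuous_const.prodMk continuous_id)) _ _
  rw [← avg_log, ← cs_avg3 _ _ (cs_int_log x _ _) hD]
  have hae : ∀ᵐ θ : ℝ, x ≠ circleMap q.2 (exp (-q.1)) θ := by
    have hc : (circleMap q.2 (exp (-q.1)) ⁻¹' {x}).Countable :=
      (countable_singleton x).preimage_circleMap _ (exp_pos _).ne'
    filter_upwards [hc.ae_notMem volume] with θ hθ h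
    exact hθ h.symm
  have hI : IntervalIntegrable (fun θ : ℝ => -log ‖x - circleMap q.2 (exp (-q.1)) θ‖ + c0 k +
      DD k ‖x - circleMap q.2 (exp (-q.1)) θ‖) volume 0 (2 * π) :=
    ((IntervalIntegrable.neg (cs_int_log x q.2 (exp (-q.1)))).add intervalIntegrable_const).add hD
  refine HasSum.const_smul (2 * π)⁻¹ ?_
  refine intervalIntegral.hasSum_integral_of_dominated_convergence
    (fun (j : ℕ) θ => layCov k j x (circleMap q.2 (exp (-q.1)) θ)) (fun j => ?_) (fun j => ?_) ?_ ?_ ?_
  · exact ((hk.continuous_layCov j).comp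
      (continuous_const.prodMk (continuous_circleMap _ _))).aestronglyMeasurable
  · exact ae_of_all _ fun θ _ => (Real.norm_of_nonneg (hk.layCov_nonneg _ _ _)).le
  · filter_upwards [hae] with θ hθ _
    exact (hk.hasSum_layCov hθ).summable
  · refine hI.congr_ae ?_
    filter_upwards [ae_restrict_of_ae hae] with θ hθ
    exact (hk.hasSum_layCov hθ).tsum_eq.symm
  · filter_upwards [hae] with θ hθ _
    exact hk.hasSum_layCov hθ

/-- the fine layers sum up to the logarithm, after two averages -/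
theorem IsKer.hasSum_avg_avg (hk : IsKer k) (p q : ℝ × ℂ) :
    HasSum (fun j : ℕ => avg (fun x => avg (fun y => layCov k j x y) q) p)
      (-avg (fun x => log (max ‖x - q.2‖ (exp (-q.1)))) p + c0 k +
        avg (fun x => avg (fun y => DD k ‖x - y‖) q) p) := by
  rw [← cs_avg3 _ _ (cs_int (cs_cont_log q) _ _) (cs_int (cs_cont (cs_cont_DD hk) q) _ _)]
  refine HasSum.const_smul (2 * π)⁻¹ ?_
  refine intervalIntegral.hasSum_integral_of_dominated_convergence
    (fun (j : ℕ) _ => (1 / 2 : ℝ) ^ j * exp q.1) (fun j => ?_) (fun j => ?_) ?_ ?_ ?_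
  · exact ((hk.continuous_avg_layCov j q).comp (continuous_circleMap _ _)).aestronglyMeasurable
  · refine ae_of_all _ fun θ _ => ?_
    have h0 : 0 ≤ avg (fun y => layCov k j (circleMap p.2 (exp (-p.1)) θ) y) q :=
      circleAverage_nonneg_of_nonneg fun y _ => hk.layCov_nonneg _ _ _
    rw [Real.norm_of_nonneg h0]
    refine (hk.avg_layCov_le j _ q).trans (le_of_eq ?_)
    rw [zpow_neg, zpow_natCast, one_div, inv_pow]
  · exact ae_of_all _ fun θ _ => summable_geometric_two.mul_right _
  · exact intervalIntegrable_const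
  · exact ae_of_all _ fun θ _ => cs_inner hk _ q

theorem gffCov_eq (p q : ℝ × ℂ) :
    gffCov p q = avg (fun x => log (max ‖x‖ 1)) p + avg (fun y => log (max ‖y‖ 1)) q -
      avg (fun x => log (max ‖x - q.2‖ (exp (-q.1)))) p := by
  have h1 : ∀ x : ℂ, avg (fun y => log (max ‖x‖ 1) + log (max ‖y‖ 1) - log ‖x - y‖) q =
      -log (max ‖x - q.2‖ (exp (-q.1))) + avg (fun y => log (max ‖y‖ 1)) q + log (max ‖x‖ 1) := by
    intro x
    have e : (fun y : ℂ => log (max ‖x‖ 1) + log (max ‖y‖ 1) - log ‖x - y‖) =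
        fun y => -log ‖x - y‖ + log (max ‖x‖ 1) + log (max ‖y‖ 1) := by
      funext y
      ring
    rw [e, cs_avg3 _ _ (cs_int_log x _ _) (cs_int cs_cont_log1 _ _), avg_log]
    ring
  unfold gffCov
  simp only [h1]
  rw [cs_avg3 _ _ (cs_int (cs_cont_log q) _ _) (cs_int cs_cont_log1 _ _)]
  ring

end LQ.Lay
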