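import Pool.Agent.Lib.MP_0d9445_pr.Lay.Summ

/-! Layers, part 12: the fine fields. -/

open MeasureTheory ProbabilityTheory Set Filter Topology Real
open Pool.Agent.Lib.MP_0d9445_pr LQ.Gauss
open scoped ENNReal RealInnerProductSpace

noncomputable section

namespace LQ.Lay

theorem measurable_fine {Ω : Type*} {m : MeasurableSpace Ω} {e : ℤ → Ω → Fn} (n : ℤ)
    (h : ∀ j, n ≤ j → Measurable (e j)) : Measurable fun ω => fine (fun j => e j ω) n :=
  Measurable.tsum fun j : ℕ => continuous_circ.measurable.comp (h (n + j) (by omega))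

theorem measurable_infra' {Ω : Type*} {m : MeasurableSpace Ω} {e : ℤ → Ω → Fn}
    (h : ∀ j, j < 0 → Measurable (e j)) : Measurable fun ω => infra fun j => e j ω := by
  have hc : Continuous fun g : Fn => g - cst (g 0) :=
    continuous_id.sub (ContinuousMap.continuous_const'.comp (continuous_eval_const 0))
  exact Measurable.tsum fun j : ℕ => hc.measurable.comp (h (-1 - j) (by omega))

theorem fine_step {e : ℤ → Fn} {n : ℤ} (he : Summable fun j : ℕ => circ (e (n + j))) :
    fine e n = addFn (fine e (n + 1)) (e n) := by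
  rw [addFn_eq, fine, he.tsum_eq_zero_add, add_comm, fine]
  congr 1
  · refine tsum_congr fun j => ?_
    congr 2
    push_cast
    ring
  · simp

theorem fine_resc {a : ℂ} (ha : a ≠ 0) (b : ℂ) (e : ℤ → Fn) (c n : ℤ) :
    affine 0 a b (fine e (n + c)) = fine (fun m => resc a b (e (m + c))) n := by
  rw [fine, affine_tsum ha, fine]
  refine tsum_congr fun j => ?_
  rw [circ_resc ha, add_right_comm]

theorem continuous_resc (a b : ℂ) : Continuous (resc a b) :=
  ContinuousMap.continuous_precomp (⟨fun z => a * z + b, by fun_prop⟩ : C(ℂ, ℂ))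

theorem dy_ne_zero (k : ℤ) (j : ℕ) : dy k j ≠ 0 :=
  mul_ne_zero (zpow_ne_zero _ two_ne_zero) (pow_ne_zero _ Complex.I_ne_zero)

variable {H Ω : Type*} [NormedAddCommGroup H] [InnerProductSpace ℝ H] [CompleteSpace H]
  {mΩ : MeasurableSpace Ω} {P : Measure Ω} {W : H → Ω → ℝ}
  {k : ℝ → ℝ} {kap : ℤ → ℂ → H} {eta : ℤ → Ω → Fn} {Z : ℤ → Ω → ℝ}

namespace Pre

theorem summable_norm_avgH (h : Pre P W k kap eta Z) (n : ℤ) (p : ℝ × ℂ) :
    Summable fun j : ℕ => ‖avgH (kap (n + j)) p‖ := by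
  refine Summable.of_nonneg_of_le (fun j => norm_nonneg _) (fun j => ?_)
    ((summable_geometric_of_lt_one (r := 3 / 4) (by norm_num) (by norm_num)).mul_left
      √(2 ^ (-n) * exp p.1))
  refine (sq_le_sq₀ (norm_nonneg _) (by positivity)).1 ((h.norm_avgH_kap_sq_le _ p).trans ?_)
  rw [mul_pow, sq_sqrt (by positivity), ← pow_mul, mul_comm j 2, pow_mul, neg_add,
    zpow_add₀ two_ne_zero, zpow_neg (2 : ℝ) (j : ℤ), zpow_natCast, ← inv_pow, mul_right_comm]
  gcongr
  norm_num

theorem hasSum_KK (h : Pre P W k kap eta Z) (n : ℤ) (p : ℝ × ℂ) :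
    HasSum (fun j : ℕ => avgH (kap (n + j)) p) (KK kap n p) :=
  (h.summable_norm_avgH n p).of_norm.hasSum

theorem hasSum_inner_KK (h : Pre P W k kap eta Z) (n : ℤ) (p : ℝ × ℂ) (v : H) :
    HasSum (fun j : ℕ => ⟪avgH (kap (n + j)) p, v⟫) ⟪KK kap n p, v⟫ := by
  have h1 := (h.hasSum_KK n p).mapL (innerSL ℝ v)
  simp only [innerSL_apply_apply] at h1
  simpa only [real_inner_comm v] using h1

theorem fine_version [SecondCountableTopology H] (h : Pre P W k kap eta Z) (n : ℤ) (p : ℝ × ℂ) :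
    (fun ω => fine (fun j => eta j ω) n p) =ᵐ[P] W (KK kap n p) := by
  filter_upwards [h.ae_summable_circ n,
    h.iso.hasSum_ae (h.summable_norm_avgH n p) (h.hasSum_KK n p),
    ae_all_iff.2 fun j : ℕ => h.circ_version (n + j) p] with ω h1 h2 h3
  have h4 := ContinuousMap.hasSum_apply h1.hasSum p
  simp_rw [h3] at h4
  exact h4.unique h2

theorem inner_avgH_kap' (h : Pre P W k kap eta Z) (i j : ℤ) (p : ℝ × ℂ) (y : ℂ) :
    ⟪avgH (kap i) p, kap j y⟫ = if i = j then avg (fun x => layCov k j x y) p else 0 := by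
  rw [inner_avgH (h.cont_kap i)]
  simp_rw [h.inner_kap]
  split_ifs
  · rfl
  · exact avg_const 0 p

theorem hasSum_ite_add (n j : ℤ) (c : ℝ) :
    HasSum (fun i : ℕ => if n + i = j then c else 0) (if n ≤ j then c else 0) := by
  split_ifs with hj
  · have h1 := hasSum_single (f := fun i : ℕ => if n + i = j then c else 0) (j - n).toNat
      fun i hi => if_neg (by omega)
    rwa [if_pos (by omega)] at h1
  · have : (fun i : ℕ => if n + i = j then c else 0) = fun _ => 0 :=
      funext fun i => if_neg (by omega)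
    rw [this]
    exact hasSum_zero

theorem inner_KK_kap (h : Pre P W k kap eta Z) (n j : ℤ) (p : ℝ × ℂ) (y : ℂ) :
    ⟪KK kap n p, kap j y⟫ = if n ≤ j then avg (fun x => layCov k j x y) p else 0 := by
  have h1 := h.hasSum_inner_KK n p (kap j y)
  simp_rw [h.inner_avgH_kap'] at h1
  exact h1.unique (hasSum_ite_add n j _)

theorem inner_KK_avgH (h : Pre P W k kap eta Z) (n j : ℤ) (p q : ℝ × ℂ) :
    ⟪KK kap n q, avgH (kap j) p⟫ =
      if n ≤ j then avg (fun x => avg (fun y => layCov k j x y) q) p else 0 := by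
  have h1 := h.hasSum_inner_KK n q (avgH (kap j) p)
  simp_rw [real_inner_comm (avgH (kap j) p), h.inner_avgH_kap] at h1
  rw [real_inner_comm]
  refine h1.unique ?_
  convert hasSum_ite_add n j _ using 2 with i
  by_cases hi : j = n + i
  · rw [if_pos hi, if_pos hi.symm, ← hi]
  · rw [if_neg hi, if_neg (Ne.symm hi)]

theorem hasSum_inner_KK_KK (h : Pre P W k kap eta Z) (n : ℤ) (p q : ℝ × ℂ) :
    HasSum (fun j : ℕ => avg (fun x => avg (fun y => layCov k (n + j) x y) q) p)
      ⟪KK kap n p, KK kap n q⟫ := by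
  convert h.hasSum_inner_KK n p (KK kap n q) using 2 with j
  rw [real_inner_comm, h.inner_KK_avgH, if_pos (by omega)]

theorem inner_KK_KK_eq_zero (h : Pre P W k kap eta Z) {n : ℤ} {p q : ℝ × ℂ}
    (hpq : ∀ x ∈ Metric.closedBall p.2 (exp (-p.1)), ∀ y ∈ Metric.closedBall q.2 (exp (-q.1)),
      (2 : ℝ) ^ (-n) / 2 ≤ ‖x - y‖) : ⟪KK kap n p, KK kap n q⟫ = 0 := by
  refine (h.hasSum_inner_KK_KK n p q).unique ?_
  convert hasSum_zero with j
  refine circleAverage_const_on_circle fun x hx => circleAverage_const_on_circle fun y hy => ?_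
  rw [abs_of_pos (exp_pos _)] at hx hy
  refine h.ker.layCov_eq_zero (le_trans ?_
    (hpq x (Metric.sphere_subset_closedBall hx) y (Metric.sphere_subset_closedBall hy)))
  gcongr
  · norm_num
  · omega

theorem inner_KK_zero (h : Pre P W k kap eta Z) (p q : ℝ × ℂ) :
    ⟪KK kap 0 p, KK kap 0 q⟫ = -avg (fun x => log (max ‖x - q.2‖ (exp (-q.1)))) p + c0 k +
      avg (fun x => avg (fun y => DD k ‖x - y‖) q) p := by
  have h1 := h.hasSum_inner_KK_KK 0 p q
  simp only [zero_add] at h1
  exact h1.unique (h.ker.hasSum_avg_avg p q)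

end Pre

end LQ.Lay
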