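import Pool.Agent.Lib.MP_0d9445_pr.Lay.Infra

/-! Layers, part 11: the kernel of the infrared part. -/

open MeasureTheory ProbabilityTheory Set Filter Topology Real
open Pool.Agent.Lib.MP_0d9445_pr LQ.Gauss
open scoped ENNReal RealInnerProductSpace

noncomputable section

namespace LQ.Lay

variable {H Ω : Type*} [NormedAddCommGroup H] [InnerProductSpace ℝ H] [CompleteSpace H]
  [SecondCountableTopology H] {mΩ : MeasurableSpace Ω} {P : Measure Ω} {W : H → Ω → ℝ}
  {k : ℝ → ℝ} {kap : ℤ → ℂ → H} {eta : ℤ → Ω → Fn} {Z : ℤ → Ω → ℝ}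

omit [CompleteSpace H] [SecondCountableTopology H] in
theorem Pre.gam_inner (h : Pre P W k kap eta Z) (i j : ℕ) (x y : ℂ) :
    ⟪kap (-1 - i) x - kap (-1 - i) 0, kap (-1 - j) y - kap (-1 - j) 0⟫ =
      if i = j then (log 2 - layCov k (-1 - j) x 0) + (log 2 - layCov k (-1 - j) y 0) -
        (log 2 - layCov k (-1 - j) x y) else 0 := by
  simp only [inner_sub_left, inner_sub_right, h.inner_kap]
  by_cases hij : i = j
  · subst hij
    simp only [if_true]
    rw [h.ker.layCov_self, layCov_comm k _ 0 y]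
    ring
  · have h1 : ¬ (-1 - (i : ℤ) = -1 - (j : ℤ)) := by omega
    simp only [if_neg h1, if_neg hij]
    ring

omit [CompleteSpace H] [SecondCountableTopology H] in
/-- the norms of the kernel increments, uniformly on discs -/
theorem Pre.exists_norm_kap_sub_le (h : Pre P W k kap eta Z) (ρ : ℝ) :
    ∃ u : ℕ → ℝ, Summable u ∧ ∀ (j : ℕ) (x : ℂ), ‖x‖ ≤ ρ →
      ‖kap (-1 - j) x - kap (-1 - j) 0‖ ≤ u j := by
  obtain ⟨C, hC⟩ := (isCompact_Icc (a := (0 : ℝ)) (b := ρ)).exists_bound_of_continuousOn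
    h.ker.fr_contG.continuousOn
  have hq : √(2⁻¹ : ℝ) < 1 := by
    rw [Real.sqrt_lt' one_pos]
    norm_num
  refine ⟨fun j => √(C * ρ) * √(2⁻¹ : ℝ) ^ j,
    (summable_geometric_of_lt_one (sqrt_nonneg _) hq).mul_left _, fun j x hx => ?_⟩
  have hr := norm_nonneg x
  have hρ : 0 ≤ ρ := hr.trans hx
  have hC0 : 0 ≤ C := (norm_nonneg _).trans (hC 0 ⟨le_rfl, hρ⟩)
  refine abs_le_of_sq_le_sq' ?_ (by positivity) |>.2
  have e1 : (2 : ℝ) ^ (-1 - (j : ℤ) + 1) = 2⁻¹ ^ j := by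
    rw [show -1 - (j : ℤ) + 1 = -(j : ℤ) by ring, zpow_neg, zpow_natCast, inv_pow]
  have e2 : (2 : ℝ) ^ (-1 - (j : ℤ)) = 2⁻¹ ^ j / 2 := by
    rw [← e1, zpow_add₀ two_ne_zero]
    simp
  have e3 : (√(C * ρ) * √(2⁻¹ : ℝ) ^ j) ^ 2 = C * ρ * 2⁻¹ ^ j := by
    rw [mul_pow, sq_sqrt (by positivity), ← pow_mul, mul_comm j, pow_mul, sq_sqrt (by positivity)]
  have ht0 : (0 : ℝ) < 2⁻¹ ^ j := by positivity
  have ht1 : (2⁻¹ : ℝ) ^ j ≤ 1 := pow_le_one₀ (by norm_num) (by norm_num)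
  rw [← real_inner_self_eq_norm_sq, h.gam_inner, if_pos rfl, h.ker.layCov_self, h.ker.layCov_eq,
    sub_zero, e1, e2, e3]
  generalize (2⁻¹ : ℝ) ^ j = t at ht0 ht1
  have h1 := h.ker.fr_DD_sub (t / 2 * ‖x‖) (t * ‖x‖)
  have h3 : 0 ≤ t / 2 * ‖x‖ := by positivity
  have h4 : t / 2 * ‖x‖ ≤ t * ‖x‖ := by linarith
  have h5 : t * ‖x‖ ≤ ρ := (mul_le_of_le_one_left hr ht1).trans hx
  have h2 := intervalIntegral.norm_integral_le_of_norm_le_const (a := t / 2 * ‖x‖) (b := t * ‖x‖)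
    (C := C) (f := frG k) fun u hu => hC u (by
      rw [uIoc_of_le h4] at hu
      exact ⟨h3.trans hu.1.le, hu.2.trans h5⟩)
  rw [← h1, Real.norm_eq_abs, abs_of_nonneg (sub_nonneg.2 h4)] at h2
  have h6 := (le_abs_self _).trans h2
  have h7 : C * t * ‖x‖ ≤ C * t * ρ := mul_le_mul_of_nonneg_left hx (by positivity)
  linarith

omit [CompleteSpace H] [SecondCountableTopology H] in
theorem Pre.gam_summable_norm (h : Pre P W k kap eta Z) (x : ℂ) :
    Summable fun j : ℕ => ‖kap (-1 - j) x - kap (-1 - j) 0‖ := by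
  obtain ⟨u, hu, h1⟩ := h.exists_norm_kap_sub_le ‖x‖
  exact hu.of_nonneg_of_le (fun _ => norm_nonneg _) fun j => h1 j x le_rfl

omit [SecondCountableTopology H] in
theorem Pre.gam_hasSum (h : Pre P W k kap eta Z) (x : ℂ) :
    HasSum (fun j : ℕ => kap (-1 - j) x - kap (-1 - j) 0) (gam kap x) :=
  (h.gam_summable_norm x).of_norm.hasSum

omit [SecondCountableTopology H] in
theorem Pre.continuous_gam (h : Pre P W k kap eta Z) : Continuous (gam kap) := by
  refine continuous_iff_continuousAt.2 fun x => ?_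
  obtain ⟨u, hu, h1⟩ := h.exists_norm_kap_sub_le (‖x‖ + 1)
  have h2 : ContinuousOn (gam kap) (Metric.closedBall 0 (‖x‖ + 1)) :=
    continuousOn_tsum (fun j => ((h.cont_kap _).sub continuous_const).continuousOn) hu
      fun j y hy => h1 j y (mem_closedBall_zero_iff.1 hy)
  exact h2.continuousAt (Metric.closedBall_mem_nhds_of_mem
    (mem_ball_zero_iff.2 (lt_add_one _)))

theorem Pre.infra_version (h : Pre P W k kap eta Z) (x : ℂ) :
    (fun ω => infra (fun j => eta j ω) x) =ᵐ[P] W (gam kap x) := by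
  have h1 : ∀ᵐ ω ∂P, ∀ j : ℕ, W (kap (-1 - j) x - kap (-1 - j) 0) ω =
      eta (-1 - j) ω x - eta (-1 - j) ω 0 := ae_all_iff.2 fun j => by
    filter_upwards [h.iso.sub (kap (-1 - j) x) (kap (-1 - j) 0), h.ver (-1 - j) x,
      h.ver (-1 - j) 0] with ω a b c
    rw [a, b, c]
  filter_upwards [h.iso.hasSum_ae (h.gam_summable_norm x) (h.gam_hasSum x), h1,
    h.ae_summable_infra] with ω a b c
  simp only [b] at a
  exact (ContinuousMap.hasSum_apply c.hasSum x).unique a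

omit [SecondCountableTopology H] in
theorem Pre.inner_gam_gam (h : Pre P W k kap eta Z) (x y : ℂ) :
    ⟪gam kap x, gam kap y⟫ = DD k ‖x‖ + DD k ‖y‖ - DD k ‖x - y‖ := by
  have h1 : ∀ j : ℕ, ⟪gam kap x, kap (-1 - j) y - kap (-1 - j) 0⟫ =
      (log 2 - layCov k (-1 - j) x 0) + (log 2 - layCov k (-1 - j) y 0) -
        (log 2 - layCov k (-1 - j) x y) := fun j => by
    have a := (h.gam_hasSum x).mapL (innerSL ℝ (kap (-1 - j) y - kap (-1 - j) 0))
    simp only [innerSL_apply_apply] at a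
    rw [real_inner_comm]
    refine a.unique ?_
    have b := hasSum_single (f := fun i : ℕ => ⟪kap (-1 - j) y - kap (-1 - j) 0,
      kap (-1 - i) x - kap (-1 - i) 0⟫) j fun i hi => by
        rw [real_inner_comm, h.gam_inner, if_neg hi]
    rwa [real_inner_comm, h.gam_inner, if_pos rfl] at b
  have a := (h.gam_hasSum y).mapL (innerSL ℝ (gam kap x))
  simp only [innerSL_apply_apply, h1] at a
  have b := ((h.ker.hasSum_layCov_neg x 0).add (h.ker.hasSum_layCov_neg y 0)).sub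
    (h.ker.hasSum_layCov_neg x y)
  rw [sub_zero, sub_zero] at b
  exact a.unique b

omit [SecondCountableTopology H] in
theorem Pre.inner_kap_gam (h : Pre P W k kap eta Z) {j : ℤ} (hj : 0 ≤ j) (x y : ℂ) :
    ⟪kap j x, gam kap y⟫ = 0 := by
  have a := (h.gam_hasSum y).mapL (innerSL ℝ (kap j x))
  have h1 : ∀ i : ℕ, ⟪kap j x, kap (-1 - i) y - kap (-1 - i) 0⟫ = 0 := fun i => by
    have h2 : ¬ (j = -1 - (i : ℤ)) := by omega
    rw [inner_sub_right, h.inner_kap, h.inner_kap, if_neg h2, if_neg h2, sub_zero]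
  simp only [innerSL_apply_apply, h1] at a
  exact a.unique hasSum_zero

end LQ.Lay
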