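import Pool.Agent.Lib.MP_0d9445_pr.Lay.Fine
import Pool.Agent.Lib.MP_0d9445_pr.Lay.Gam

/-! Layers, part 13: the sum of all layers is a Gaussian free field. -/

open MeasureTheory ProbabilityTheory Set Filter Topology Real
open Pool.Agent.Lib.MP_0d9445_pr LQ.Gauss
open scoped ENNReal RealInnerProductSpace

noncomputable section

namespace LQ.Lay

theorem continuous_avg_param {f : ℂ → ℂ → ℝ} (hf : Continuous (Function.uncurry f)) (q : ℝ × ℂ) :
    Continuous fun x => avg (f x) q := cs_cont (F := f) hf q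

theorem avg_add_sub {f g u : ℂ → ℝ} (hf : Continuous f) (hg : Continuous g) (hu : Continuous u)
    (p : ℝ × ℂ) : avg (fun x => f x + g x - u x) p = avg f p + avg g p - avg u p := by
  unfold avg
  rw [circleAverage_fun_sub (f₁ := fun x => f x + g x) (hf.add hg).continuousOn.circleIntegrable'
      hu.continuousOn.circleIntegrable',
    circleAverage_fun_add hf.continuousOn.circleIntegrable' hg.continuousOn.circleIntegrable']

theorem abs_avg_le {f : ℂ → ℝ} (hf : Continuous f) {p : ℝ × ℂ} {C : ℝ}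
    (h : ∀ x ∈ Metric.sphere p.2 (exp (-p.1)), |f x| ≤ C) : |avg f p| ≤ C := by
  refine abs_circleAverage_le_circleAverage_abs.trans (circleAverage_mono_on_of_le_circle
    (f := |f|) hf.abs.continuousOn.circleIntegrable' fun x hx => ?_)
  rw [abs_of_pos (exp_pos _)] at hx
  exact h x hx

/-- the double average of the logarithm -/
def Lg (p q : ℝ × ℂ) : ℝ := avg (fun x => log (max ‖x - q.2‖ (exp (-q.1)))) p

theorem Lg_self (p : ℝ × ℂ) : Lg p p = -p.1 := by
  unfold Lg avg
  refine circleAverage_const_on_circle fun x hx => ?_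
  rw [abs_of_pos (exp_pos _), mem_sphere_iff_norm] at hx
  simp only [hx, max_self, log_exp]

theorem Lg_zero_right (p : ℝ × ℂ) : Lg p 0 = avg (fun x => log (max ‖x‖ 1)) p := by
  simp [Lg]

variable {H Ω : Type*} [NormedAddCommGroup H] [InnerProductSpace ℝ H] [CompleteSpace H]
  [SecondCountableTopology H] {mΩ : MeasurableSpace Ω} {P : Measure Ω} {W : H → Ω → ℝ}
  {k : ℝ → ℝ} {kap : ℤ → ℂ → H} {eta : ℤ → Ω → Fn} {Z : ℤ → Ω → ℝ}

/-- kernel of the full field -/
def Gm (kap : ℤ → ℂ → H) (p : ℝ × ℂ) : H := KK kap 0 p + avgH (gam kap) p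

namespace Pre

theorem inner_KK_gam (h : Pre P W k kap eta Z) (p : ℝ × ℂ) (y : ℂ) :
    ⟪KK kap 0 p, gam kap y⟫ = 0 := by
  refine (h.hasSum_inner_KK 0 p (gam kap y)).unique ?_
  convert hasSum_zero with j
  rw [inner_avgH (h.cont_kap _)]
  simp_rw [h.inner_kap_gam (j := 0 + j) (by omega)]
  exact avg_const 0 p

theorem inner_KK_avgH_gam (h : Pre P W k kap eta Z) (p q : ℝ × ℂ) :
    ⟪KK kap 0 p, avgH (gam kap) q⟫ = 0 := by
  rw [avgH_inner h.continuous_gam]
  simp_rw [h.inner_KK_gam]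
  exact avg_const 0 q

theorem inner_Gm (h : Pre P W k kap eta Z) (p q : ℝ × ℂ) :
    ⟪Gm kap p, Gm kap q⟫ =
      -Lg p q + c0 k + avg (fun x => DD k ‖x‖) p + avg (fun x => DD k ‖x‖) q := by
  have hD := h.ker.continuous_DD
  have h1 : ∀ x : ℂ, avg (fun y => DD k ‖x‖ + DD k ‖y‖ - DD k ‖x - y‖) q =
      DD k ‖x‖ + avg (fun y => DD k ‖y‖) q - avg (fun y => DD k ‖x - y‖) q := fun x => by
    rw [avg_add_sub continuous_const (by fun_prop) (by fun_prop), avg_const]
  rw [Gm, Gm, inner_add_left, inner_add_right, inner_add_right, h.inner_KK_avgH_gam,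
    real_inner_comm (KK kap 0 q) (avgH (gam kap) p), h.inner_KK_avgH_gam, h.inner_KK_zero,
    inner_avgH_avgH h.continuous_gam h.continuous_gam]
  simp_rw [h.inner_gam_gam, h1]
  rw [avg_add_sub (by fun_prop) continuous_const
    (continuous_avg_param (f := fun x y => DD k ‖x - y‖) (by fun_prop) q), avg_const, Lg]
  ring

theorem inner_Gm_sub (h : Pre P W k kap eta Z) (p q : ℝ × ℂ) :
    ⟪Gm kap p - Gm kap 0, Gm kap q - Gm kap 0⟫ = gffCov p q := by
  rw [inner_sub_left, inner_sub_right, inner_sub_right, real_inner_comm (Gm kap q) (Gm kap 0),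
    h.inner_Gm, h.inner_Gm, h.inner_Gm, h.inner_Gm, Lg_self, Lg_zero_right, Lg_zero_right,
    gffCov_eq, Lg]
  simp only [Prod.fst_zero]
  ring

theorem full_version (h : Pre P W k kap eta Z) (p : ℝ × ℂ) :
    (fun ω => addFn (fine (fun j => eta j ω) 0) (infra fun j => eta j ω) p) =ᵐ[P]
      W (Gm kap p) := by
  filter_upwards [h.fine_version 0 p, avg_version h.iso
    (measurable_infra' fun j _ => h.meas_eta j) h.continuous_gam h.infra_version p,
    h.iso.add (KK kap 0 p) (avgH (gam kap) p)] with ω h1 h2 h3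
  rw [Gm, h3, ← h1, ← h2]
  rfl

theorem isGFF {Ω : Type} [MeasurableSpace Ω] {P : Measure Ω} {W : H → Ω → ℝ} {eta : ℤ → Ω → Fn}
    {Z : ℤ → Ω → ℝ} (h : Pre P W k kap eta Z) :
    IsGFF (fun ω => addFn (fine (fun j => eta j ω) 0) (infra fun j => eta j ω)) P := by
  have hv : ∀ p, (fun ω => addFn (fine (fun j => eta j ω) 0) (infra fun j => eta j ω) p -
      addFn (fine (fun j => eta j ω) 0) (infra fun j => eta j ω) 0) =ᵐ[P]
      W (Gm kap p - Gm kap 0) := fun p => by
    filter_upwards [h.full_version p, h.full_version 0, h.iso.sub (Gm kap p) (Gm kap 0)]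
      with ω h1 h2 h3
    rw [h3, h1, h2]
  refine ⟨(measurable_fine 0 fun j _ => h.meas_eta j).add
      (continuous_circ.measurable.comp (measurable_infra' fun j _ => h.meas_eta j)),
    h.iso.version_isGaussianProcess hv, fun p => ?_, fun p q => ?_⟩
  · rw [integral_congr_ae (hv p), h.iso.integral_eq_zero]
  · rw [← h.inner_Gm_sub, ← h.iso.integral_mul]
    refine integral_congr_ae ?_
    filter_upwards [hv p, hv q] with ω h1 h2
    rw [h1, h2]

theorem var_fine (h : Pre P W k kap eta Z) : ∃ C : ℝ, ∀ t, 0 ≤ t → ∀ z,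
    |Var[fun ω => fine (fun j => eta j ω) 0 (t, z); P] - t| ≤ C := by
  have hD := h.ker.continuous_DD
  obtain ⟨M, hM⟩ := (isCompact_Icc (a := (0 : ℝ)) (b := 2)).exists_bound_of_continuousOn
    hD.continuousOn
  refine ⟨|c0 k| + M, fun t ht z => ?_⟩
  rw [variance_congr (h.fine_version 0 (t, z)), h.iso.variance, ← real_inner_self_eq_norm_sq,
    h.inner_KK_zero, ← Lg, Lg_self]
  have h1 : |avg (fun x => avg (fun y => DD k ‖x - y‖) (t, z)) (t, z)| ≤ M := by
    refine abs_avg_le (continuous_avg_param (f := fun x y => DD k ‖x - y‖) (by fun_prop) _)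
      fun x hx => abs_avg_le (by fun_prop) fun y hy => hM _ ⟨norm_nonneg _, ?_⟩
    rw [mem_sphere_iff_norm] at hx hy
    have h2 : exp (-t) ≤ 1 := exp_le_one_iff.2 (by linarith)
    calc ‖x - y‖ = ‖(x - z) - (y - z)‖ := by rw [sub_sub_sub_cancel_right]
      _ ≤ ‖x - z‖ + ‖y - z‖ := norm_sub_le _ _
      _ ≤ 2 := by
        simp only at hx hy
        linarith
  have h3 := abs_add_le (c0 k) (avg (fun x => avg (fun y => DD k ‖x - y‖) (t, z)) (t, z))
  simp only [neg_neg]
  rw [show t + c0 k + avg (fun x => avg (fun y => DD k ‖x - y‖) (t, z)) (t, z) - t =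
    c0 k + avg (fun x => avg (fun y => DD k ‖x - y‖) (t, z)) (t, z) by ring]
  linarith

end Pre

end LQ.Lay
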