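import Pool.Agent.Lib.MP_0d9445_pr.Lay.Pre

/-! Layers, part 10: the infrared part. -/

open MeasureTheory ProbabilityTheory Set Filter Topology Real
open Pool.Agent.Lib.MP_0d9445_pr LQ.Gauss
open scoped ENNReal RealInnerProductSpace

noncomputable section

namespace LQ.Lay

variable {H Ω : Type*} [NormedAddCommGroup H] [InnerProductSpace ℝ H] [CompleteSpace H]
  [SecondCountableTopology H] {mΩ : MeasurableSpace Ω} {P : Measure Ω} {W : H → Ω → ℝ}
  {k : ℝ → ℝ} {kap : ℤ → ℂ → H} {eta : ℤ → Ω → Fn} {Z : ℤ → Ω → ℝ}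

theorem Infra_cont_cst (b : ℂ) : Continuous fun g : Fn => cst (g b) :=
  ContinuousMap.continuous_const'.comp (continuous_eval_const b)

theorem Infra_cont_shape (a b : ℂ) : Continuous (shape a b) :=
  (ContinuousMap.continuous_precomp (⟨fun z => a * z + b, by fun_prop⟩ : C(ℂ, ℂ))).sub
    (Infra_cont_cst b)

/-- `shape a b` as an additive map -/
def Infra_shapeHom (a b : ℂ) : Fn →+ Fn where
  toFun := shape a b
  map_zero' := by
    ext z
    simp [shape, resc]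
  map_add' f g := by
    ext z
    simp only [shape, resc, ContinuousMap.sub_apply, ContinuousMap.add_apply, ContinuousMap.coe_mk,
      ContinuousMap.const_apply]
    ring

theorem Infra_ex_le {θ L : ℝ} {g : Fn} {A : Set ℂ} (hL : 0 ≤ L)
    (h : ∀ x ∈ A, ∀ y ∈ A, |g x - g y| ≤ L * ‖x - y‖) :
    CR.ex (ENNReal.ofReal θ * CR.lip g A) ≤ ENNReal.ofReal (exp (|θ| * L)) := by
  have h1 : ENNReal.ofReal θ * CR.lip g A ≤ ENNReal.ofReal (|θ| * L) := by
    rw [ENNReal.ofReal_mul (abs_nonneg θ)]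
    exact mul_le_mul' (ENNReal.ofReal_le_ofReal (le_abs_self θ)) (lip_le h)
  have h2 : ((ENNReal.ofReal (|θ| * L) : ℝ≥0∞) : EReal) = ((|θ| * L : ℝ) : EReal) := by
    rw [EReal.coe_ennreal_ofReal, max_eq_left (mul_nonneg (abs_nonneg θ) hL)]
  rw [← EReal.exp_coe, ← h2]
  exact EReal.exp_monotone (EReal.coe_ennreal_le_coe_ennreal_iff.2 h1)

/-- Jensen's inequality for a series -/
theorem Infra_jensen {w x : ℕ → ℝ} {S : ℝ} (hw0 : ∀ j, 0 ≤ w j) (hw : HasSum w 1)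
    (hS : HasSum (fun j => w j * x j) S) :
    ENNReal.ofReal (exp S) ≤ ∑' j, ENNReal.ofReal (w j * exp (x j)) := by
  have h0 : ∀ j, 0 ≤ w j * exp (x j) := fun j => mul_nonneg (hw0 j) (exp_pos _).le
  rcases eq_or_ne (∑' j, ENNReal.ofReal (w j * exp (x j))) ∞ with h | h
  · rw [h]
    exact le_top
  have hs : Summable fun j => w j * exp (x j) := by
    simpa only [ENNReal.toReal_ofReal (h0 _)] using ENNReal.summable_toReal h
  rw [← ENNReal.ofReal_tsum_of_nonneg h0 hs]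
  refine ENNReal.ofReal_le_ofReal ?_
  have h1 := (hS.mul_left (exp S)).add (hw.mul_left (exp S * (1 - S)))
  have e : exp S * S + exp S * (1 - S) * 1 = exp S := by ring
  rw [e] at h1
  refine hasSum_le (fun j => ?_) h1 hs.hasSum
  have h2 : exp (x j) = exp S * exp (x j - S) := by
    rw [← exp_add]
    congr 1
    ring
  have h3 := mul_le_mul_of_nonneg_left (add_one_le_exp (x j - S))
    (mul_nonneg (hw0 j) (exp_pos S).le)
  rw [h2]
  linarith

theorem Infra_zpow (j : ℕ) : (2 : ℝ) ^ (-1 - (j : ℤ)) = 2⁻¹ * 2⁻¹ ^ j := by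
  rw [zpow_sub₀ two_ne_zero, zpow_natCast, zpow_neg_one, inv_pow, div_eq_mul_inv]

omit [CompleteSpace H] [SecondCountableTopology H] in
theorem Infra_lip (h : Pre P W k kap eta Z) (j : ℕ) (ω : Ω) {ρ : ℝ} (hρ : 0 ≤ ρ) {x y : ℂ}
    (hx : ‖x‖ ≤ ρ) (hy : ‖y‖ ≤ ρ) : |eta (-1 - j) ω x - eta (-1 - j) ω y| ≤
      2⁻¹ * 2⁻¹ ^ j * Z (-1 - j) ω * ((1 + ρ) ^ 3 * ‖x - y‖) := by
  refine (h.lip _ ω ρ x y hx hy).trans ?_
  rw [Infra_zpow]
  have h1 : (2⁻¹ : ℝ) ^ j ≤ 1 := pow_le_one₀ (by norm_num) (by norm_num)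
  have h2 : (2⁻¹ : ℝ) * 2⁻¹ ^ j * ρ ≤ ρ := mul_le_of_le_one_left hρ (by linarith)
  have h3 : (1 + (2⁻¹ : ℝ) * 2⁻¹ ^ j * ρ) ^ 3 ≤ (1 + ρ) ^ 3 :=
    pow_le_pow_left₀ (by positivity) (by linarith) 3
  have h4 := h.Z_nonneg (-1 - j) ω
  have h5 := mul_le_mul_of_nonneg_left h3
    (show 0 ≤ (2⁻¹ : ℝ) * 2⁻¹ ^ j * Z (-1 - j) ω * ‖x - y‖ by positivity)
  linarith

theorem measurable_infra : Measurable infra :=
  Measurable.tsum fun j : ℕ =>
    (continuous_id.sub (Infra_cont_cst 0)).measurable.comp (measurable_pi_apply (-1 - (j : ℤ)))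

theorem infra_zero (e : ℤ → Fn) : infra e 0 = 0 := by
  unfold infra
  by_cases h : Summable fun j : ℕ => e (-1 - j) - cst (e (-1 - j) 0)
  · rw [← ContinuousMap.tsum_apply h]
    simp
  · rw [tsum_eq_zero_of_not_summable h]
    rfl

theorem tendsto_infra {e : ℤ → Fn}
    (he : Summable fun j : ℕ => e (-1 - j) - cst (e (-1 - j) 0)) :
    Tendsto (fun N : ℕ => ∑ j ∈ Finset.Ico (-(N : ℤ)) 0, (e j - cst (e j 0))) atTop
      (𝓝 (infra e)) := by
  refine he.hasSum.tendsto_sum_nat.congr fun N => ?_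
  refine Finset.sum_nbij' (fun j : ℕ => -1 - (j : ℤ)) (fun j => (-1 - j).toNat) ?_ ?_ ?_ ?_ ?_
  · intro j hj
    simp only [Finset.mem_range, Finset.mem_Ico] at hj ⊢
    omega
  · intro j hj
    simp only [Finset.mem_range, Finset.mem_Ico] at hj ⊢
    omega
  · intro j _
    omega
  · intro j hj
    simp only [Finset.mem_Ico] at hj
    omega
  · intro j _
    rfl

/-- the shape seen from `b` at level `n` is the infrared part of the rescaled layers -/
theorem shape_infra {e : ℤ → Fn} (he : Summable fun j : ℕ => e (-1 - j) - cst (e (-1 - j) 0))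
    (n : ℕ) (a b : ℂ) :
    shape a b (infra e + ∑ i ∈ Finset.range n, e i) =
      infra fun m => resc a b (e (m + n)) := by
  have h1 : HasSum (fun j : ℕ => shape a b (e (-1 - ((j + n : ℕ) : ℤ) + n)))
      (shape a b (infra e)) := by
    have h2 := he.hasSum.map (Infra_shapeHom a b) (Infra_cont_shape a b)
    refine h2.congr_fun fun j => ?_
    rw [show -1 - ((j + n : ℕ) : ℤ) + n = -1 - j by push_cast; ring]
    ext z
    simp [Infra_shapeHom, shape, resc]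
  have h3 := (hasSum_nat_add_iff (f := fun j : ℕ => shape a b (e (-1 - (j : ℤ) + n))) n).1 h1
  have h4 : ∑ i ∈ Finset.range n, shape a b (e (-1 - (i : ℤ) + n)) =
      ∑ i ∈ Finset.range n, shape a b (e i) := by
    rw [← Finset.sum_range_reflect (fun i : ℕ => shape a b (e i)) n]
    refine Finset.sum_congr rfl fun i hi => ?_
    rw [Finset.mem_range] at hi
    rw [show ((n - 1 - i : ℕ) : ℤ) = -1 - (i : ℤ) + n by omega]
  have h5 : shape a b (infra e + ∑ i ∈ Finset.range n, e i) =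
      shape a b (infra e) + ∑ i ∈ Finset.range n, shape a b (e i) :=
    ((Infra_shapeHom a b).map_add _ _).trans (congrArg _ (map_sum (Infra_shapeHom a b) _ _))
  rw [h5, ← h4, ← h3.tsum_eq]
  refine tsum_congr fun j => ?_
  ext z
  simp [shape, resc]

theorem Pre.ae_summable_infra (h : Pre P W k kap eta Z) :
    ∀ᵐ ω ∂P, Summable fun j : ℕ => eta (-1 - j) ω - cst (eta (-1 - j) ω 0) := by
  filter_upwards [h.ae_summable_Z fun j => -1 - j] with ω hω
  refine ContinuousMap.summable_of_locally_summable_norm fun K => ?_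
  obtain ⟨ρ, hρ0, hρ⟩ := K.isCompact.isBounded.exists_pos_norm_le
  refine Summable.of_nonneg_of_le (fun _ => norm_nonneg _) (fun j => ?_)
    (hω.mul_left (2⁻¹ * ((1 + ρ) ^ 3 * ρ)))
  have hZ := h.Z_nonneg (-1 - j) ω
  refine (ContinuousMap.norm_le _ (by positivity)).2 fun x => ?_
  have h1 := Infra_lip h j ω hρ0.le (hρ x x.2) (show ‖(0 : ℂ)‖ ≤ ρ by simpa using hρ0.le)
  rw [sub_zero] at h1
  have h2 := mul_le_mul_of_nonneg_left (hρ x x.2)
    (show 0 ≤ (2⁻¹ : ℝ) * 2⁻¹ ^ j * Z (-1 - j) ω * (1 + ρ) ^ 3 by positivity)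
  refine le_trans (le_of_eq ?_) (h1.trans (by linarith))
  rfl

theorem Pre.lipexp (h : Pre P W k kap eta Z) (θ ρ : ℝ) :
    ∫⁻ ω, CR.ex (ENNReal.ofReal θ * CR.lip (eta 0 ω) (Metric.ball 0 ρ)) ∂P < ∞ := by
  obtain ⟨C, hC, hZ⟩ := h.expZ (|θ| * (1 + |ρ|) ^ 3)
  refine lt_of_le_of_lt ((lintegral_mono fun ω => ?_).trans (hZ 0)) hC.lt_top
  have h0 := h.Z_nonneg 0 ω
  rw [mul_assoc]
  refine Infra_ex_le (by positivity) fun x hx y hy => ?_
  simpa using h.lip 0 ω |ρ| x y ((mem_ball_zero_iff.1 hx).le.trans (le_abs_self ρ))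
    ((mem_ball_zero_iff.1 hy).le.trans (le_abs_self ρ))

theorem Pre.lipexp_infra (h : Pre P W k kap eta Z) (θ ρ : ℝ) :
    ∫⁻ ω, CR.ex (ENNReal.ofReal θ * CR.lip (infra fun j => eta j ω) (Metric.ball 0 ρ)) ∂P < ∞ := by
  obtain ⟨C, hC, hZ⟩ := h.expZ (|θ| * (1 + |ρ|) ^ 3)
  have hw0 : ∀ j : ℕ, (0 : ℝ) ≤ 2⁻¹ * 2⁻¹ ^ j := fun j => by positivity
  have hw : HasSum (fun j : ℕ => (2⁻¹ : ℝ) * 2⁻¹ ^ j) 1 := by
    have := (hasSum_geometric_of_lt_one (r := (2⁻¹ : ℝ)) (by norm_num) (by norm_num)).mul_left 2⁻¹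
    norm_num at this ⊢
    exact this
  have hm : ∀ j : ℕ, Measurable fun ω =>
      ENNReal.ofReal (exp (|θ| * (1 + |ρ|) ^ 3 * Z (-1 - j) ω)) := fun j =>
    ((h.meas_Z _).const_mul _).exp.ennreal_ofReal
  have h1 : ∀ᵐ ω ∂P, CR.ex (ENNReal.ofReal θ * CR.lip (infra fun j => eta j ω) (Metric.ball 0 ρ)) ≤
      ∑' j : ℕ, ENNReal.ofReal (2⁻¹ * 2⁻¹ ^ j) *
        ENNReal.ofReal (exp (|θ| * (1 + |ρ|) ^ 3 * Z (-1 - j) ω)) := by
    filter_upwards [h.ae_summable_Z fun j => -1 - j, h.ae_summable_infra] with ω hω hs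
    obtain ⟨S, hS⟩ : ∃ S, HasSum (fun j : ℕ => (2⁻¹ : ℝ) * 2⁻¹ ^ j * Z (-1 - j) ω) S :=
      ⟨_, by simpa only [mul_assoc] using (hω.mul_left 2⁻¹).hasSum⟩
    have hS0 : 0 ≤ S := hS.nonneg fun j => mul_nonneg (hw0 j) (h.Z_nonneg _ ω)
    refine (Infra_ex_le (L := (1 + |ρ|) ^ 3 * S) (by positivity) fun x hx y hy => ?_).trans ?_
    · have h2 := (ContinuousMap.hasSum_apply hs.hasSum x).sub
        (ContinuousMap.hasSum_apply hs.hasSum y)
      have h3 := h2.norm_le_of_bounded (hS.mul_right ((1 + |ρ|) ^ 3 * ‖x - y‖)) fun j => by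
        have := Infra_lip h j ω (abs_nonneg ρ)
          ((mem_ball_zero_iff.1 hx).le.trans (le_abs_self ρ))
          ((mem_ball_zero_iff.1 hy).le.trans (le_abs_self ρ))
        simpa using this
      rw [Real.norm_eq_abs] at h3
      exact h3.trans (le_of_eq (by ring))
    · simp_rw [← ENNReal.ofReal_mul (hw0 _)]
      refine Infra_jensen hw0 hw ?_
      rw [← mul_assoc]
      exact (hS.mul_left _).congr_fun fun j => by ring
  refine lt_of_le_of_lt (lintegral_mono_ae h1) ?_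
  rw [lintegral_tsum fun j => ((hm j).const_mul _).aemeasurable]
  have h2 : ∀ j : ℕ, ∫⁻ ω, ENNReal.ofReal (2⁻¹ * 2⁻¹ ^ j) *
      ENNReal.ofReal (exp (|θ| * (1 + |ρ|) ^ 3 * Z (-1 - j) ω)) ∂P ≤
      ENNReal.ofReal (2⁻¹ * 2⁻¹ ^ j) * C := fun j => by
    rw [lintegral_const_mul _ (hm j)]
    exact mul_le_mul_right (hZ _) _
  refine lt_of_le_of_lt (ENNReal.tsum_le_tsum h2) ?_
  rw [ENNReal.tsum_mul_right, ← ENNReal.ofReal_tsum_of_nonneg hw0 hw.summable]
  exact ENNReal.mul_lt_top ENNReal.ofReal_lt_top hC.lt_top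

end LQ.Lay
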