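import Pool.Agent.Lib.MP_0d9445_pr.Lay.CMap
import Pool.Agent.Lib.MP_0d9445_pr.Lay.CircSum
import Pool.Agent.Lib.MP_0d9445_pr.Gauss.Fubini
import Pool.Agent.Lib.MP_0d9445_pr.Gauss.Riesz

/-! Layers, part 8: the abstract data (isonormal process, kernels, Lipschitz versions) from which
the structure `Layers` is built. -/

open MeasureTheory ProbabilityTheory Set Filter Topology Real
open Pool.Agent.Lib.MP_0d9445_pr LQ.Gauss
open scoped ENNReal RealInnerProductSpace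

noncomputable section

namespace LQ.Lay

variable {H Ω : Type*} [NormedAddCommGroup H] [InnerProductSpace ℝ H] {mΩ : MeasurableSpace Ω}

/-- smooth layers as Lipschitz versions of an isonormal process along kernels -/
structure Pre (P : Measure Ω) (W : H → Ω → ℝ) (k : ℝ → ℝ) (kap : ℤ → ℂ → H)
    (eta : ℤ → Ω → Fn) (Z : ℤ → Ω → ℝ) : Prop where
  iso : IsIso W P
  ker : IsKer k
  inner_kap : ∀ i j x y, ⟪kap i x, kap j y⟫ = if i = j then layCov k j x y else 0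
  cont_kap : ∀ j, Continuous (kap j)
  meas_eta : ∀ j, Measurable (eta j)
  meas_Z : ∀ j, Measurable (Z j)
  Z_nonneg : ∀ j ω, 0 ≤ Z j ω
  ver : ∀ j x, (fun ω => eta j ω x) =ᵐ[P] W (kap j x)
  lip : ∀ j ω ρ x y, ‖x‖ ≤ ρ → ‖y‖ ≤ ρ →
    |eta j ω x - eta j ω y| ≤ 2 ^ j * (1 + 2 ^ j * ρ) ^ 3 * Z j ω * ‖x - y‖
  expZ : ∀ a : ℝ, ∃ C : ℝ≥0∞, C ≠ ∞ ∧ ∀ j, ∫⁻ ω, ENNReal.ofReal (exp (a * Z j ω)) ∂P ≤ C

/-- circle average of a vector valued function -/
def avgH (f : ℂ → H) (p : ℝ × ℂ) : H := circleAverage f p.2 (exp (-p.1))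

/-- the sum of the layers `j ≥ n` -/
def fine (e : ℤ → Fn) (n : ℤ) : Field := ∑' j : ℕ, circ (e (n + j))

/-- the infrared part -/
def infra (e : ℤ → Fn) : Fn := ∑' j : ℕ, (e (-1 - j) - cst (e (-1 - j) 0))

/-- kernel of the fine field -/
def KK (kap : ℤ → ℂ → H) (n : ℤ) (p : ℝ × ℂ) : H := ∑' j : ℕ, avgH (kap (n + j)) p

/-- kernel of the infrared part -/
def gam (kap : ℤ → ℂ → H) (x : ℂ) : H := ∑' j : ℕ, (kap (-1 - j) x - kap (-1 - j) 0)

variable {P : Measure Ω} {W : H → Ω → ℝ} {k : ℝ → ℝ} {kap : ℤ → ℂ → H} {eta : ℤ → Ω → Fn}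
  {Z : ℤ → Ω → ℝ}

theorem inner_avgH [CompleteSpace H] {f : ℂ → H} (hf : Continuous f) (p : ℝ × ℂ) (h : H) :
    ⟪avgH f p, h⟫ = avg (fun x => ⟪f x, h⟫) p := by
  have h1 := (innerSL ℝ h).circleAverage_comp_comm (f := f) (c := p.2) (R := exp (-p.1))
    hf.continuousOn.circleIntegrable'
  rw [real_inner_comm, avgH, avg]
  simp_rw [real_inner_comm h]
  exact h1.symm

theorem avgH_inner [CompleteSpace H] {f : ℂ → H} (hf : Continuous f) (p : ℝ × ℂ) (h : H) :
    ⟪h, avgH f p⟫ = avg (fun x => ⟪h, f x⟫) p := by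
  rw [real_inner_comm, inner_avgH hf]
  simp_rw [real_inner_comm h]

theorem inner_avgH_avgH [CompleteSpace H] {f g : ℂ → H} (hf : Continuous f) (hg : Continuous g)
    (p q : ℝ × ℂ) : ⟪avgH f p, avgH g q⟫ = avg (fun x => avg (fun y => ⟪f x, g y⟫) q) p := by
  rw [inner_avgH hf]
  simp_rw [avgH_inner hg]

theorem avg_const (c : ℝ) (p : ℝ × ℂ) : avg (fun _ => c) p = c := circleAverage_const c _ _

/-- the circle average of a continuous version is a version -/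
theorem avg_version [CompleteSpace H] [SecondCountableTopology H] (hW : IsIso W P) {X : Ω → Fn}
    (hX : Measurable X) {f : ℂ → H} (hf : Continuous f)
    (h : ∀ x, (fun ω => X ω x) =ᵐ[P] W (f x)) (p : ℝ × ℂ) :
    (fun ω => avg (X ω) p) =ᵐ[P] W (avgH f p) := by
  have hc : Continuous fun θ : ℝ => circleMap p.2 (exp (-p.1)) θ := continuous_circleMap _ _
  have hY : Measurable (Function.uncurry fun (θ : ℝ) ω => X ω (circleMap p.2 (exp (-p.1)) θ)) :=
    measurable_cm_apply (hX.comp measurable_snd) (hc.measurable.comp measurable_fst)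
  have hi : Integrable (fun θ => f (circleMap p.2 (exp (-p.1)) θ))
      (volume.restrict (Ioc 0 (2 * π))) :=
    ((hf.comp hc).intervalIntegrable 0 (2 * π)).1
  filter_upwards [hW.integral_comm' hY (ae_of_all _ fun θ => h _) hi,
    hW.smul (2 * π)⁻¹ (∫ θ in Ioc 0 (2 * π), f (circleMap p.2 (exp (-p.1)) θ))] with ω h1 h2
  rw [avgH, avg, circleAverage_def, circleAverage_def,
    intervalIntegral.integral_of_le two_pi_pos.le, intervalIntegral.integral_of_le two_pi_pos.le,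
    h2, h1, smul_eq_mul]

namespace Pre

theorem prob (h : Pre P W k kap eta Z) : IsProbabilityMeasure P := h.iso.prob

theorem inner_avgH_kap [CompleteSpace H] (h : Pre P W k kap eta Z) (i j : ℤ) (p q : ℝ × ℂ) :
    ⟪avgH (kap i) p, avgH (kap j) q⟫ =
      if i = j then avg (fun x => avg (fun y => layCov k j x y) q) p else 0 := by
  rw [inner_avgH_avgH (h.cont_kap i) (h.cont_kap j)]
  simp_rw [h.inner_kap]
  split_ifs
  · rfl
  · simp_rw [avg_const]

theorem norm_avgH_kap_sq_le [CompleteSpace H] (h : Pre P W k kap eta Z) (j : ℤ) (p : ℝ × ℂ) :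
    ‖avgH (kap j) p‖ ^ 2 ≤ 2 ^ (-j) * exp p.1 := by
  rw [← real_inner_self_eq_norm_sq, h.inner_avgH_kap, if_pos rfl]
  exact circleAverage_mono_on_of_le_circle
    (h.ker.continuous_avg_layCov j p).continuousOn.circleIntegrable'
    fun x _ => h.ker.avg_layCov_le j x p

theorem circ_version [CompleteSpace H] [SecondCountableTopology H] (h : Pre P W k kap eta Z)
    (j : ℤ) (p : ℝ × ℂ) : (fun ω => circ (eta j ω) p) =ᵐ[P] W (avgH (kap j) p) :=
  avg_version h.iso (h.meas_eta j) (h.cont_kap j) (h.ver j) p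

/-- geometric sums of the Lipschitz variables are finite -/
theorem ae_summable_Z (h : Pre P W k kap eta Z) (u : ℕ → ℤ) :
    ∀ᵐ ω ∂P, Summable fun j : ℕ => (2⁻¹ : ℝ) ^ j * Z (u j) ω := by
  obtain ⟨C, hC, hZ⟩ := h.expZ 1
  have hm : ∀ j : ℕ, Measurable fun ω => ‖(2⁻¹ : ℝ) ^ j * Z (u j) ω‖ₑ := fun j =>
    ((h.meas_Z _).const_mul _).enorm
  have h1 : ∀ j : ℕ, ∫⁻ ω, ‖(2⁻¹ : ℝ) ^ j * Z (u j) ω‖ₑ ∂P ≤ 2⁻¹ ^ j * C := fun j => by
    have e : ‖(2⁻¹ : ℝ) ^ j‖ₑ = 2⁻¹ ^ j := by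
      rw [enorm_pow, Real.enorm_eq_ofReal (by norm_num), ENNReal.ofReal_inv_of_pos (by norm_num)]
      simp
    simp_rw [enorm_mul, e]
    rw [lintegral_const_mul _ (h.meas_Z _).enorm]
    refine mul_le_mul_right ((lintegral_mono fun ω => ?_).trans (hZ (u j))) _
    rw [Real.enorm_eq_ofReal (h.Z_nonneg _ ω), one_mul]
    exact ENNReal.ofReal_le_ofReal (by linarith [add_one_le_exp (Z (u j) ω)])
  have h2 : ∫⁻ ω, ∑' j : ℕ, ‖(2⁻¹ : ℝ) ^ j * Z (u j) ω‖ₑ ∂P ≠ ∞ := by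
    rw [lintegral_tsum fun j => (hm j).aemeasurable]
    refine ne_top_of_le_ne_top ?_ (ENNReal.tsum_le_tsum h1)
    rw [ENNReal.tsum_mul_right, ENNReal.tsum_geometric]
    exact ENNReal.mul_ne_top (by simp) hC
  filter_upwards [ae_lt_top (Measurable.tsum hm) h2] with ω hω
  exact (tsum_enorm_ne_top_iff_summable_norm.1 hω.ne).of_norm

end Pre

end LQ.Lay
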