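import Pool.Agent.Lib.MP_0d9445_pr.Lay.Pre

/-! Layers, part 9: the circle averages of the layers are a.s. summable, locally uniformly. -/

open MeasureTheory ProbabilityTheory Set Filter Topology Real
open Pool.Agent.Lib.MP_0d9445_pr LQ.Gauss
open scoped ENNReal RealInnerProductSpace

noncomputable section

namespace LQ.Lay

variable {H Ω : Type*} [NormedAddCommGroup H] [InnerProductSpace ℝ H] [CompleteSpace H]
  [SecondCountableTopology H] {mΩ : MeasurableSpace Ω} {P : Measure Ω} {W : H → Ω → ℝ}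
  {k : ℝ → ℝ} {kap : ℤ → ℂ → H} {eta : ℤ → Ω → Fn} {Z : ℤ → Ω → ℝ}

/-- the integer coordinates of the grid -/
def summI (M j : ℕ) : Finset ℤ := Finset.Icc (-(M * 32 ^ j)) (M * 32 ^ j)

/-- the grid points of mesh `32 ^ (-j)` -/
def summPt (j : ℕ) (a : ℤ × ℤ × ℤ) : ℝ × ℂ :=
  (a.1 / 32 ^ j, ⟨a.2.1 / 32 ^ j, a.2.2 / 32 ^ j⟩)

theorem summ_card (M j : ℕ) : ((summI M j).card : ℝ) ≤ (2 * M + 1) * 32 ^ j := by
  have h1 : (summI M j).card = 2 * M * 32 ^ j + 1 := by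
    rw [summI, Int.card_Icc]
    have : (M * 32 ^ j + 1 - -(M * 32 ^ j) : ℤ) = ((2 * M * 32 ^ j + 1 : ℕ) : ℤ) := by
      push_cast; ring
    rw [this, Int.toNat_natCast]
  have h2 : (1 : ℝ) ≤ 32 ^ j := one_le_pow₀ (by norm_num)
  rw [h1]
  push_cast
  linarith

theorem summ_abs_le {M j : ℕ} {a : ℤ} (ha : a ∈ summI M j) : |(a : ℝ) / 32 ^ j| ≤ M := by
  have h0 : (0 : ℝ) < 32 ^ j := by positivity
  obtain ⟨h1, h2⟩ := Finset.mem_Icc.1 ha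
  have h3 : ((-(M * 32 ^ j) : ℤ) : ℝ) ≤ a := Int.cast_le.2 h1
  have h4 : (a : ℝ) ≤ ((M * 32 ^ j : ℤ) : ℝ) := Int.cast_le.2 h2
  push_cast at h3 h4
  rw [abs_div, abs_of_pos h0, div_le_iff₀ h0]
  exact abs_le.2 ⟨h3, h4⟩

theorem summ_near (M j : ℕ) {t : ℝ} (ht : |t| ≤ M) :
    ∃ a ∈ summI M j, |t - (a : ℝ) / 32 ^ j| ≤ (32 ^ j)⁻¹ := by
  have h0 : (0 : ℝ) < 32 ^ j := by positivity
  obtain ⟨h1, h2⟩ := abs_le.1 ht
  refine ⟨⌊t * 32 ^ j⌋, Finset.mem_Icc.2 ⟨Int.le_floor.2 ?_, ?_⟩, ?_⟩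
  · push_cast
    nlinarith
  · refine Int.cast_le (R := ℝ).1 ((Int.floor_le _).trans ?_)
    push_cast
    nlinarith
  · have e : t - (⌊t * 32 ^ j⌋ : ℝ) / 32 ^ j = (t * 32 ^ j - ⌊t * 32 ^ j⌋) * (32 ^ j)⁻¹ := by
      field_simp
    have h3 := Int.floor_le (t * 32 ^ j)
    have h4 := Int.lt_floor_add_one (t * 32 ^ j)
    rw [e, abs_mul, abs_of_pos (inv_pos.2 h0)]
    exact mul_le_of_le_one_left (inv_pos.2 h0).le (abs_le.2 ⟨by linarith, by linarith⟩)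

theorem summ_exp_sub {a b M : ℝ} (ha : a ≤ M) (hb : b ≤ M) :
    |exp a - exp b| ≤ exp M * |a - b| := by
  wlog h : a ≤ b generalizing a b
  · rw [abs_sub_comm, abs_sub_comm a]
    exact this hb ha (le_of_not_ge h)
  have h1 := add_one_le_exp (a - b)
  have h2 : exp a = exp b * exp (a - b) := by rw [← exp_add]; congr 1; ring
  have h3 := exp_pos b
  have h4 := exp_le_exp.2 hb
  rw [abs_of_nonpos (sub_nonpos.2 (exp_le_exp.2 h)), abs_of_nonpos (sub_nonpos.2 h), h2]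
  nlinarith [mul_le_mul_of_nonneg_right h4 (sub_nonneg.2 h)]

theorem summ_exp_le {s : ℝ} (hs : 0 < s) (j : ℕ) :
    exp (-((4 / 5 : ℝ) ^ j) ^ 2 / (2 * (s * 2⁻¹ ^ j))) ≤
      (Nat.factorial 45 : ℝ) * (2 * s) ^ 45 * (65536⁻¹ : ℝ) ^ j := by
  have e : -((4 / 5 : ℝ) ^ j) ^ 2 / (2 * (s * 2⁻¹ ^ j)) = -((32 / 25 : ℝ) ^ j / (2 * s)) := by
    have : (32 / 25 : ℝ) ^ j * 2⁻¹ ^ j = ((4 / 5 : ℝ) ^ j) ^ 2 := by
      rw [← mul_pow, ← pow_mul, mul_comm j 2, pow_mul]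
      norm_num
    rw [← this]
    field_simp
  have hx : 0 < (32 / 25 : ℝ) ^ j / (2 * s) := by positivity
  have h1 := Real.pow_div_factorial_le_exp _ hx.le 45
  have h2 : (65536 : ℝ) ^ j ≤ ((32 / 25 : ℝ) ^ j) ^ 45 := by
    rw [← pow_mul, mul_comm, pow_mul]
    exact pow_le_pow_left₀ (by norm_num) (by norm_num) j
  have h3 : (0 : ℝ) < Nat.factorial 45 := by exact_mod_cast Nat.factorial_pos 45
  rw [e, exp_neg, inv_pow, ← div_eq_mul_inv, ← inv_div (65536 ^ j)]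
  refine inv_anti₀ (by positivity) (le_trans ?_ h1)
  rw [div_pow, div_div, mul_comm ((2 * s) ^ 45)]
  gcongr

theorem summ_tail (h : Pre P W k kap eta Z) (n : ℤ) (M j : ℕ) {p : ℝ × ℂ} (hp : p.1 ≤ M) :
    P {ω | (4 / 5 : ℝ) ^ j ≤ |circ (eta (n + j) ω) p|} ≤ ENNReal.ofReal
      (2 * ((Nat.factorial 45 : ℝ) * (2 * (2 ^ (-n) * exp M)) ^ 45 * (65536⁻¹ : ℝ) ^ j)) := by
  have hs : (0 : ℝ) < 2 ^ (-n) * exp M := by positivity
  have h0 : (0 : ℝ) < 2 ^ (-n) * exp M * 2⁻¹ ^ j := by positivity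
  have h1 : ‖avgH (kap (n + j)) p‖ ≤ √(2 ^ (-n) * exp M * 2⁻¹ ^ j) := by
    refine le_sqrt_of_sq_le ((h.norm_avgH_kap_sq_le _ p).trans ?_)
    rw [neg_add, zpow_add₀ two_ne_zero, zpow_neg (2 : ℝ) (j : ℤ), zpow_natCast, inv_pow,
      mul_right_comm]
    gcongr
  have h2 := h.iso.tail_abs (sqrt_pos.2 h0) h1 (t := (4 / 5 : ℝ) ^ j) (by positivity)
  rw [sq_sqrt h0.le] at h2
  refine le_trans (le_of_eq (measure_congr ?_)) (h2.trans (ENNReal.ofReal_le_ofReal ?_))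
  · filter_upwards [h.circ_version (n + j) p] with ω hω
    change ((4 / 5 : ℝ) ^ j ≤ |circ (eta (n + j) ω) p|) = ((4 / 5 : ℝ) ^ j ≤ _)
    rw [hω]
  · exact mul_le_mul_of_nonneg_left (summ_exp_le hs j) two_pos.le

theorem summ_grid (h : Pre P W k kap eta Z) (n : ℤ) (M : ℕ) :
    ∀ᵐ ω ∂P, ∀ᶠ j : ℕ in atTop, ∀ a ∈ summI M j ×ˢ summI M j ×ˢ summI M j,
      |circ (eta (n + j) ω) (summPt j a)| ≤ (4 / 5 : ℝ) ^ j := by
  obtain ⟨C, hC0, hC⟩ : ∃ C : ℝ, 0 ≤ C ∧ ∀ (j : ℕ) (p : ℝ × ℂ), p.1 ≤ M →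
      P {ω | (4 / 5 : ℝ) ^ j ≤ |circ (eta (n + j) ω) p|} ≤
        ENNReal.ofReal (C * (65536⁻¹ : ℝ) ^ j) :=
    ⟨2 * ((Nat.factorial 45 : ℝ) * (2 * (2 ^ (-n) * exp M)) ^ 45), by positivity,
      fun j p hp => by rw [mul_assoc]; exact summ_tail h n M j hp⟩
  have h1 : ∀ j : ℕ, P (⋃ a ∈ summI M j ×ˢ summI M j ×ˢ summI M j,
      {ω | (4 / 5 : ℝ) ^ j ≤ |circ (eta (n + j) ω) (summPt j a)|}) ≤
      ENNReal.ofReal ((2 * M + 1) ^ 3 * C * (2⁻¹ : ℝ) ^ j) := fun j => by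
    refine (measure_biUnion_finset_le _ _).trans ((Finset.sum_le_card_nsmul _ _ _ fun a ha =>
      hC j _ ((le_abs_self _).trans (summ_abs_le (Finset.mem_product.1 ha).1))).trans ?_)
    rw [← ENNReal.ofReal_nsmul, nsmul_eq_mul, Finset.card_product, Finset.card_product]
    refine ENNReal.ofReal_le_ofReal ?_
    have h2 := summ_card M j
    have h3 : (2⁻¹ : ℝ) ^ j = (32 ^ j) ^ 3 * (65536⁻¹ : ℝ) ^ j := by
      rw [← pow_mul, mul_comm j 3, pow_mul, ← mul_pow]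
      norm_num
    push_cast
    calc ((summI M j).card : ℝ) * ((summI M j).card * (summI M j).card) * (C * 65536⁻¹ ^ j)
        ≤ ((2 * M + 1) * 32 ^ j) * (((2 * M + 1) * 32 ^ j) * ((2 * M + 1) * 32 ^ j)) *
          (C * 65536⁻¹ ^ j) := by gcongr
      _ = _ := by rw [h3]; ring
  have h2 : Summable fun j : ℕ => (2 * M + 1) ^ 3 * C * (2⁻¹ : ℝ) ^ j :=
    (summable_geometric_of_lt_one (by norm_num) (by norm_num)).mul_left _
  filter_upwards [ae_eventually_notMem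
    (ne_top_of_le_ne_top h2.tsum_ofReal_ne_top (ENNReal.tsum_le_tsum h1))] with ω hω
  filter_upwards [hω] with j hj a ha
  by_contra hn
  exact hj (mem_biUnion ha (not_le.1 hn).le)

omit [CompleteSpace H] [SecondCountableTopology H] in
theorem summ_osc (h : Pre P W k kap eta Z) (n : ℤ) (M j : ℕ) (ω : Ω) {p q : ℝ × ℂ}
    (hp : |p.1| ≤ M ∧ |p.2.re| ≤ M ∧ |p.2.im| ≤ M) (hq : |q.1| ≤ M ∧ |q.2.re| ≤ M ∧ |q.2.im| ≤ M)
    (h1 : |p.1 - q.1| ≤ (32 ^ j)⁻¹) (h2 : |p.2.re - q.2.re| ≤ (32 ^ j)⁻¹)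
    (h3 : |p.2.im - q.2.im| ≤ (32 ^ j)⁻¹) :
    |circ (eta (n + j) ω) p - circ (eta (n + j) ω) q| ≤
      2 ^ n * (1 + 2 ^ n * (2 * M + exp M)) ^ 3 * (2 + exp M) * (2⁻¹ ^ j * Z (n + j) ω) := by
  have hb : ∀ p : ℝ × ℂ, |p.1| ≤ M ∧ |p.2.re| ≤ M ∧ |p.2.im| ≤ M →
      ‖p.2‖ + exp (-p.1) ≤ 2 * M + exp M := fun p hp => by
    have a1 := Complex.norm_le_abs_re_add_abs_im p.2
    have a2 := exp_le_exp.2 ((neg_le_abs _).trans hp.1)
    linarith [hp.2.1, hp.2.2]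
  have hZ := h.Z_nonneg (n + j) ω
  have h4 := abs_avg_sub_avg_le (eta (n + j) ω).continuous (by positivity)
    (h.lip (n + j) ω (2 * M + exp M)) (hb p hp) (hb q hq)
  have h5 : ‖p.2 - q.2‖ + |exp (-p.1) - exp (-q.1)| ≤ (2 + exp M) * (32 ^ j)⁻¹ := by
    have a1 := Complex.norm_le_abs_re_add_abs_im (p.2 - q.2)
    have a2 := summ_exp_sub ((neg_le_abs _).trans hp.1) ((neg_le_abs _).trans hq.1)
    rw [neg_sub_neg, abs_sub_comm q.1] at a2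
    have a3 := mul_le_mul_of_nonneg_left h1 (exp_pos M).le
    rw [Complex.sub_re, Complex.sub_im] at a1
    linarith
  have h6 : (1 : ℝ) ≤ 2 ^ j := one_le_pow₀ one_le_two
  have h7 : 1 + (2 : ℝ) ^ (n + j) * (2 * M + exp M) ≤ 2 ^ j * (1 + 2 ^ n * (2 * M + exp M)) := by
    rw [zpow_add₀ two_ne_zero, zpow_natCast]
    linarith
  have h8 : (2⁻¹ : ℝ) ^ j = (2 ^ j) ^ 4 * (32 ^ j)⁻¹ := by
    rw [← pow_mul, mul_comm j 4, pow_mul, ← inv_pow, ← mul_pow]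
    norm_num
  refine h4.trans ?_
  calc (2 : ℝ) ^ (n + j) * (1 + 2 ^ (n + j) * (2 * M + exp M)) ^ 3 * Z (n + j) ω *
        (‖p.2 - q.2‖ + |exp (-p.1) - exp (-q.1)|)
      ≤ 2 ^ (n + j) * (2 ^ j * (1 + 2 ^ n * (2 * M + exp M))) ^ 3 * Z (n + j) ω *
        ((2 + exp M) * (32 ^ j)⁻¹) := by gcongr
    _ = _ := by rw [h8, zpow_add₀ two_ne_zero, zpow_natCast]; ring

theorem Pre.ae_summable_circ (h : Pre P W k kap eta Z) (n : ℤ) :
    ∀ᵐ ω ∂P, Summable fun j : ℕ => circ (eta (n + j) ω) := by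
  filter_upwards [ae_all_iff.2 (summ_grid h n), h.ae_summable_Z fun j => n + j] with ω h1 h2
  refine ContinuousMap.summable_of_locally_summable_norm fun K => ?_
  obtain ⟨R, hR⟩ := K.isCompact.isBounded.exists_norm_le
  obtain ⟨M, hM⟩ := exists_nat_ge R
  refine Summable.of_norm_bounded_eventually_nat
    ((summable_geometric_of_lt_one (r := 4 / 5) (by norm_num) (by norm_num)).add
      (h2.mul_left (2 ^ n * (1 + 2 ^ n * (2 * M + exp M)) ^ 3 * (2 + exp M)))) ?_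
  filter_upwards [h1 M] with j hj
  have hZ := h.Z_nonneg (n + j) ω
  rw [norm_norm, ContinuousMap.norm_le _ (by positivity)]
  intro p
  have a0 := (hR p p.2).trans hM
  have a1 : |p.1.1| ≤ M := (norm_fst_le p.1).trans a0
  have a2 : |p.1.2.re| ≤ M := (Complex.abs_re_le_norm _).trans ((norm_snd_le p.1).trans a0)
  have a3 : |p.1.2.im| ≤ M := (Complex.abs_im_le_norm _).trans ((norm_snd_le p.1).trans a0)
  obtain ⟨a, ha, ea⟩ := summ_near M j a1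
  obtain ⟨b, hb, eb⟩ := summ_near M j a2
  obtain ⟨c, hc, ec⟩ := summ_near M j a3
  have b1 := hj (a, b, c) (Finset.mem_product.2 ⟨ha, Finset.mem_product.2 ⟨hb, hc⟩⟩)
  have b2 := summ_osc h n M j ω (q := summPt j (a, b, c)) ⟨a1, a2, a3⟩
    ⟨summ_abs_le ha, summ_abs_le hb, summ_abs_le hc⟩ ea eb ec
  have b3 := abs_sub_abs_le_abs_sub (circ (eta (n + j) ω) p.1)
    (circ (eta (n + j) ω) (summPt j (a, b, c)))
  change |circ (eta (n + j) ω) p.1| ≤ _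
  linarith

end LQ.Lay
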