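import Mathlib

/-! Layers, part 3: the kernel `theta` inverts `(1 - d1^2) (1 - d2^2)`. -/

open MeasureTheory Set Filter Topology Real
open scoped ContDiff

noncomputable section

namespace LQ.Lay

/-- the smoothing kernel -/
def theta (a : ℂ) : ℝ := exp (-(|a.re| + |a.im|)) / 4

/-- an integrable weight -/
def wt3 (v : ℂ) : ℝ := ((1 + ‖v‖) ^ 3)⁻¹

theorem continuous_theta : Continuous theta := by
  unfold theta
  fun_prop
theorem theta_pos (a : ℂ) : 0 < theta a := by
  unfold theta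
  positivity
theorem continuous_wt3 : Continuous wt3 := by
  unfold wt3
  exact Continuous.inv₀ (by fun_prop) fun v => by positivity
theorem wt3_pos (v : ℂ) : 0 < wt3 v := by
  unfold wt3
  positivity
theorem integrable_wt3 : Integrable wt3 := by
  have h : Integrable (fun x : ℂ => (1 + ‖x‖) ^ (-(3 : ℝ))) volume :=
    integrable_one_add_norm (by rw [Complex.finrank_real_complex]; norm_num)
  refine h.congr (Eventually.of_forall fun v => ?_)
  have hv : (0 : ℝ) ≤ 1 + ‖v‖ := by positivity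
  simp only [wt3]
  rw [rpow_neg hv, ← rpow_natCast]
  norm_num

theorem th_exp_le {t : ℝ} (ht : 0 ≤ t) : exp (-t) * (1 + t) ^ 3 ≤ 40 := by
  have h1 := Real.pow_div_factorial_le_exp (1 + t) (by positivity) 3
  have h2 : ((Nat.factorial 3 : ℕ) : ℝ) = 6 := by norm_num [Nat.factorial]
  rw [h2, exp_add, div_le_iff₀ (by norm_num)] at h1
  have h3 : exp 1 ≤ 3 := Real.exp_one_lt_three.le
  have h4 : exp (-t) * exp t = 1 := by rw [← exp_add]; simp
  have h5 := exp_pos (-t)
  calc exp (-t) * (1 + t) ^ 3 ≤ exp (-t) * (exp 1 * exp t * 6) := by gcongr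
    _ = exp 1 * 6 * (exp (-t) * exp t) := by ring
    _ ≤ 40 := by rw [h4]; linarith

theorem theta_le {ρ : ℝ} {x : ℂ} (hx : ‖x‖ ≤ ρ) (v : ℂ) :
    theta (x - v) ≤ 10 * (1 + ρ) ^ 3 * wt3 v := by
  have hρ : 0 ≤ ρ := (norm_nonneg _).trans hx
  have h1 : exp (-(|(x - v).re| + |(x - v).im|)) ≤ exp (-‖x - v‖) :=
    exp_le_exp.2 (neg_le_neg (Complex.norm_le_abs_re_add_abs_im _))
  have h2 := th_exp_le (norm_nonneg (x - v))
  have h3 : 1 + ‖v‖ ≤ (1 + ‖x - v‖) * (1 + ρ) := by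
    have h4 : ‖v‖ ≤ ‖x‖ + ‖x - v‖ := by
      calc ‖v‖ = ‖x - (x - v)‖ := by rw [sub_sub_cancel]
        _ ≤ _ := norm_sub_le _ _
    nlinarith [norm_nonneg (x - v)]
  unfold theta wt3
  rw [← div_eq_mul_inv, div_le_div_iff₀ (by norm_num) (by positivity)]
  calc exp (-(|(x - v).re| + |(x - v).im|)) * (1 + ‖v‖) ^ 3
      ≤ exp (-‖x - v‖) * ((1 + ‖x - v‖) * (1 + ρ)) ^ 3 := by gcongr
    _ = exp (-‖x - v‖) * (1 + ‖x - v‖) ^ 3 * (1 + ρ) ^ 3 := by ring
    _ ≤ 40 * (1 + ρ) ^ 3 := by gcongr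
    _ = 10 * (1 + ρ) ^ 3 * 4 := by ring

theorem th_exp_sub {a b : ℝ} (h : a ≤ b) : |exp (-a) - exp (-b)| ≤ exp (-a) * |a - b| := by
  have h1 : exp (-b) ≤ exp (-a) := exp_le_exp.2 (neg_le_neg h)
  rw [abs_of_nonneg (sub_nonneg.2 h1), abs_of_nonpos (sub_nonpos.2 h)]
  have h2 : exp (-b) = exp (-a) * exp (a - b) := by rw [← exp_add]; congr 1; ring
  have h3 := Real.add_one_le_exp (a - b)
  have h4 := exp_pos (-a)
  rw [h2]
  nlinarith

theorem th_lip {a b : ℂ} {C : ℝ} (ha : theta a ≤ C) (hb : theta b ≤ C) :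
    |theta a - theta b| ≤ 2 * C * ‖a - b‖ := by
  have hC : 0 ≤ C := (theta_pos a).le.trans ha
  have h1 : |(|a.re| + |a.im|) - (|b.re| + |b.im|)| ≤ 2 * ‖a - b‖ := by
    have h2 := abs_abs_sub_abs_le_abs_sub a.re b.re
    have h3 := abs_abs_sub_abs_le_abs_sub a.im b.im
    have h4 := Complex.abs_re_le_norm (a - b)
    have h5 := Complex.abs_im_le_norm (a - b)
    rw [Complex.sub_re] at h4
    rw [Complex.sub_im] at h5
    have h6 := abs_add_le (|a.re| - |b.re|) (|a.im| - |b.im|)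
    have h7 : |a.re| + |a.im| - (|b.re| + |b.im|) = |a.re| - |b.re| + (|a.im| - |b.im|) := by ring
    rw [h7]
    linarith
  unfold theta at ha hb ⊢
  rw [← sub_div, abs_div, abs_of_pos (by norm_num : (0 : ℝ) < 4), div_le_iff₀ (by norm_num)]
  rw [div_le_iff₀ (by norm_num)] at ha hb
  rcases le_total (|a.re| + |a.im|) (|b.re| + |b.im|) with h | h
  · calc _ ≤ _ := th_exp_sub h
      _ ≤ C * 4 * (2 * ‖a - b‖) := by gcongr
      _ = _ := by ring
  · rw [abs_sub_comm] at h1 ⊢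
    calc _ ≤ _ := th_exp_sub h
      _ ≤ C * 4 * (2 * ‖a - b‖) := by gcongr
      _ = _ := by ring

theorem theta_lip {ρ : ℝ} {x y : ℂ} (hx : ‖x‖ ≤ ρ) (hy : ‖y‖ ≤ ρ) (v : ℂ) :
    |theta (x - v) - theta (y - v)| ≤ 20 * (1 + ρ) ^ 3 * wt3 v * ‖x - y‖ := by
  have h := th_lip (theta_le hx v) (theta_le hy v)
  rw [sub_sub_sub_cancel_right] at h
  calc _ ≤ _ := h
    _ = _ := by ring

theorem th_supp {g : ℝ → ℝ} {R : ℝ} (h : ∀ t, R < |t| → g t = 0) : HasCompactSupport g := by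
  refine HasCompactSupport.intro (isCompact_closedBall (0 : ℝ) R) fun t ht => h t ?_
  simpa using ht

/-- the identity on the line -/
theorem th_line {f f1 f2 : ℝ → ℝ} {R : ℝ} (h1 : ∀ t, HasDerivAt f (f1 t) t)
    (h2 : ∀ t, HasDerivAt f1 (f2 t) t) (hc : Continuous f2)
    (z0 : ∀ t, R < |t| → f t = 0) (z1 : ∀ t, R < |t| → f1 t = 0)
    (z2 : ∀ t, R < |t| → f2 t = 0) (x : ℝ) :
    ∫ t, exp (-|x - t|) / 2 * (f t - f2 t) = f x := by
  have c0 : Continuous f := continuous_iff_continuousAt.2 fun t => (h1 t).continuousAt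
  have hi : ∀ w : ℝ → ℝ, Continuous w → Integrable fun t => w t * (f t - f2 t) := by
    intro w hw
    refine Continuous.integrable_of_hasCompactSupport (by fun_prop) (th_supp (R := R) ?_)
    intro t ht
    rw [z0 t ht, z2 t ht, sub_zero, mul_zero]
  have a1 : ∫ t in Ioi x, exp (x - t) / 2 * (f t - f2 t)
      = 0 - -(exp (x - x) / 2 * (f x + f1 x)) := by
    refine integral_Ioi_of_hasDerivAt_of_tendsto' (f := fun t => -(exp (x - t) / 2 * (f t + f1 t)))
      (fun t _ => ?_) (hi _ (by fun_prop)).integrableOn ?_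
    · have h3 := ((((hasDerivAt_id t).const_sub x).exp.div_const 2).mul ((h1 t).add (h2 t))).neg
      refine h3.congr_deriv ?_
      simp only [id, Pi.add_apply]
      ring
    · refine tendsto_const_nhds.congr' ?_
      filter_upwards [eventually_gt_atTop R] with t ht
      rw [z0 t (ht.trans_le (le_abs_self t)), z1 t (ht.trans_le (le_abs_self t))]
      simp
  have a2 : ∫ t in Iic x, exp (t - x) / 2 * (f t - f2 t)
      = exp (x - x) / 2 * (f x - f1 x) - 0 := by
    refine integral_Iic_of_hasDerivAt_of_tendsto' (f := fun t => exp (t - x) / 2 * (f t - f1 t))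
      (fun t _ => ?_) (hi _ (by fun_prop)).integrableOn ?_
    · have h3 := (((hasDerivAt_id t).sub_const x).exp.div_const 2).mul ((h1 t).sub (h2 t))
      refine h3.congr_deriv ?_
      simp only [id, Pi.sub_apply]
      ring
    · refine tendsto_const_nhds.congr' ?_
      filter_upwards [eventually_lt_atBot (-R)] with t ht
      have h4 : R < |t| := lt_of_lt_of_le (by linarith) (neg_le_abs t)
      rw [z0 t h4, z1 t h4]
      simp
  have b1 : ∫ t in Ioi x, exp (-|x - t|) / 2 * (f t - f2 t)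
      = ∫ t in Ioi x, exp (x - t) / 2 * (f t - f2 t) := by
    refine setIntegral_congr_fun measurableSet_Ioi fun t ht => ?_
    have h5 : x - t ≤ 0 := sub_nonpos.2 (le_of_lt ht)
    simp only [abs_of_nonpos h5, neg_neg]
  have b2 : ∫ t in Iic x, exp (-|x - t|) / 2 * (f t - f2 t)
      = ∫ t in Iic x, exp (t - x) / 2 * (f t - f2 t) := by
    refine setIntegral_congr_fun measurableSet_Iic fun t ht => ?_
    have h5 : 0 ≤ x - t := sub_nonneg.2 ht
    simp only [abs_of_nonneg h5, neg_sub]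
  have hI := hi (fun t => exp (-|x - t|) / 2) (by fun_prop)
  rw [← intervalIntegral.integral_Iic_add_Ioi (b := x) hI.integrableOn hI.integrableOn, b1, b2,
    a1, a2, sub_self, exp_zero]
  ring

/-- directional derivative in the complex variable -/
def thD (e : ℂ) (F : ℝ × ℂ → ℝ) (p : ℝ × ℂ) : ℝ := fderiv ℝ F p (0, e)

/-- the operator `1 - d^2` -/
def thL (e : ℂ) (F : ℝ × ℂ → ℝ) (p : ℝ × ℂ) : ℝ := F p - thD e (thD e F) p

theorem thD_smooth (e : ℂ) {F : ℝ × ℂ → ℝ} (hF : ContDiff ℝ ∞ F) : ContDiff ℝ ∞ (thD e F) :=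
  (hF.fderiv_right (m := ∞) (by simp)).clm_apply contDiff_const

theorem thL_smooth (e : ℂ) {F : ℝ × ℂ → ℝ} (hF : ContDiff ℝ ∞ F) : ContDiff ℝ ∞ (thL e F) :=
  hF.sub (thD_smooth e (thD_smooth e hF))

theorem thD_zero (e : ℂ) {F : ℝ × ℂ → ℝ} (h0 : ∀ s z, -1 < s → 1 < ‖z‖ → F (s, z) = 0) :
    ∀ s z, -1 < s → 1 < ‖z‖ → thD e F (s, z) = 0 := by
  intro s z hs hz
  have ho : IsOpen {p : ℝ × ℂ | -1 < p.1 ∧ 1 < ‖p.2‖} :=
    (isOpen_lt continuous_const continuous_fst).inter
      (isOpen_lt continuous_const continuous_snd.norm)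
  have he : F =ᶠ[𝓝 (s, z)] fun _ => 0 := by
    filter_upwards [ho.mem_nhds (show (s, z) ∈ _ from ⟨hs, hz⟩)] with p hp
    exact h0 p.1 p.2 hp.1 hp.2
  unfold thD
  rw [he.fderiv_eq]
  simp

theorem thL_zero (e : ℂ) {F : ℝ × ℂ → ℝ} (h0 : ∀ s z, -1 < s → 1 < ‖z‖ → F (s, z) = 0) :
    ∀ s z, -1 < s → 1 < ‖z‖ → thL e F (s, z) = 0 := by
  intro s z hs hz
  unfold thL
  rw [h0 s z hs hz, thD_zero e (thD_zero e h0) s z hs hz, sub_zero]

theorem thD_deriv (e p : ℂ) (s : ℝ) {F : ℝ × ℂ → ℝ} (hF : ContDiff ℝ ∞ F) (t : ℝ) :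
    HasDerivAt (fun t : ℝ => F (s, p + t • e)) (thD e F (s, p + t • e)) t := by
  have h1 : HasDerivAt (fun t : ℝ => (s, p + t • e)) ((0 : ℝ), e) t := by
    refine (hasDerivAt_const t s).prodMk ?_
    simpa using ((hasDerivAt_id t).smul_const e).const_add p
  exact ((hF.differentiable (by simp)) _).hasFDerivAt.comp_hasDerivAt t h1

theorem th_dir {e : ℂ} (he : ‖e‖ = 1) (p : ℂ) {s : ℝ} (hs : -1 < s) {F : ℝ × ℂ → ℝ}
    (hF : ContDiff ℝ ∞ F) (h0 : ∀ s z, -1 < s → 1 < ‖z‖ → F (s, z) = 0) (x : ℝ) :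
    ∫ t : ℝ, exp (-|x - t|) / 2 * thL e F (s, p + t • e) = F (s, p + x • e) := by
  have far : ∀ t : ℝ, 1 + ‖p‖ < |t| → 1 < ‖p + t • e‖ := by
    intro t ht
    have h1 : ‖t • e‖ ≤ ‖p + t • e‖ + ‖p‖ := by
      calc ‖t • e‖ = ‖p + t • e - p‖ := by rw [add_sub_cancel_left]
        _ ≤ _ := norm_sub_le _ _
    rw [norm_smul, he, mul_one, Real.norm_eq_abs] at h1
    linarith
  have hc := (thD_smooth e (thD_smooth e hF)).continuous
  exact th_line (R := 1 + ‖p‖) (thD_deriv e p s hF) (thD_deriv e p s (thD_smooth e hF))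
    (by fun_prop) (fun t ht => h0 _ _ hs (far t ht)) (fun t ht => thD_zero e h0 _ _ hs (far t ht))
    (fun t ht => thD_zero e (thD_zero e h0) _ _ hs (far t ht)) x

theorem th_fubini {g : ℂ → ℝ} (hg : Integrable g) :
    ∫ v, g v = ∫ u : ℝ, ∫ w : ℝ, g ((u : ℂ) + w • Complex.I) := by
  have hm := Complex.volume_preserving_equiv_real_prod.symm
  have h1 := hm.integral_comp' g
  have h2 : Integrable (g ∘ Complex.measurableEquivRealProd.symm) (volume.prod volume) :=
    (hm.integrable_comp_emb Complex.measurableEquivRealProd.symm.measurableEmbedding).2 hg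
  rw [← h1]
  refine (integral_prod _ h2).trans ?_
  refine integral_congr_ae (Eventually.of_forall fun u => ?_)
  refine integral_congr_ae (Eventually.of_forall fun w => ?_)
  simp only [Function.comp]
  congr 1
  apply Complex.ext <;> simp

/-- `G = (1 - d2^2) (1 - d1^2) F`, derivatives in the complex variable only -/
theorem exists_theta_density {F : ℝ × ℂ → ℝ} (hF : ContDiff ℝ ∞ F)
    (h0 : ∀ s z, -1 < s → 1 < ‖z‖ → F (s, z) = 0) :
    ∃ G : ℝ × ℂ → ℝ, Continuous G ∧ (∀ s z, -1 < s → 1 < ‖z‖ → G (s, z) = 0) ∧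
      ∀ s z, -1 < s → F (s, z) = ∫ v, theta (z - v) * G (s, v) := by
  have hH := thL_smooth 1 hF
  have hH0 := thL_zero 1 h0
  have hG := (thL_smooth Complex.I hH).continuous
  have hG0 := thL_zero Complex.I hH0
  refine ⟨thL Complex.I (thL 1 F), hG, hG0, fun s z hs => ?_⟩
  have hth := continuous_theta
  have hi : Integrable fun v => theta (z - v) * thL Complex.I (thL 1 F) (s, v) := by
    refine Continuous.integrable_of_hasCompactSupport (by fun_prop) ?_
    refine HasCompactSupport.intro (isCompact_closedBall (0 : ℂ) 1) fun v hv => ?_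
    rw [hG0 s v hs (by simpa using hv), mul_zero]
  have e1 : z = z.im • Complex.I + z.re • (1 : ℂ) := by apply Complex.ext <;> simp
  rw [th_fubini hi]
  conv_lhs => rw [e1]
  rw [← th_dir (e := 1) norm_one _ hs hF h0]
  refine integral_congr_ae (Eventually.of_forall fun u => ?_)
  have e2 : z.im • Complex.I + u • (1 : ℂ) = (u : ℂ) + z.im • Complex.I := by
    apply Complex.ext <;> simp
  simp only []
  rw [e2, ← th_dir Complex.norm_I _ hs hH hH0, ← integral_const_mul]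
  refine integral_congr_ae (Eventually.of_forall fun w => ?_)
  have e3 : theta (z - ((u : ℂ) + w • Complex.I))
      = exp (-|z.re - u|) / 2 * (exp (-|z.im - w|) / 2) := by
    have r1 : (z - ((u : ℂ) + w • Complex.I)).re = z.re - u := by simp
    have r2 : (z - ((u : ℂ) + w • Complex.I)).im = z.im - w := by simp
    rw [theta, r1, r2, neg_add, exp_add]
    ring
  simp only []
  rw [e3]
  ring

end LQ.Lay
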