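import Pool.Agent.Lib.MP_0d9445_pr.Lay.CMap
import Pool.Agent.Lib.MP_0d9445_pr.Lay.Theta
import Pool.Agent.Lib.MP_0d9445_pr.Gauss.Fubini

/-! Layers, part 6: the Lipschitz version `theta * W (g .)`. -/

open MeasureTheory ProbabilityTheory Set Filter Topology Real
open Pool.Agent.Lib.MP_0d9445_pr LQ.Gauss
open scoped ENNReal

noncomputable section

namespace LQ.Lay

theorem continuous_of_lip {f : ℂ → ℝ} {L : ℝ → ℝ}
    (h : ∀ ρ x y, ‖x‖ ≤ ρ → ‖y‖ ≤ ρ → |f x - f y| ≤ L ρ * ‖x - y‖) : Continuous f := by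
  refine continuous_iff_continuousAt.2 fun x => ?_
  rw [ContinuousAt, tendsto_iff_norm_sub_tendsto_zero]
  have h1 : Tendsto (fun y : ℂ => L (‖x‖ + 1) * ‖y - x‖) (𝓝 x) (𝓝 0) := by
    have : Continuous fun y : ℂ => L (‖x‖ + 1) * ‖y - x‖ := by fun_prop
    simpa using this.tendsto x
  refine squeeze_zero' (Eventually.of_forall fun y => norm_nonneg _) ?_ h1
  have h2 : ∀ᶠ y : ℂ in 𝓝 x, ‖y‖ < ‖x‖ + 1 :=
    continuous_norm.continuousAt.eventually_lt continuousAt_const (lt_add_one _)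
  filter_upwards [h2] with y hy
  exact h _ y x hy.le (by linarith)

theorem integrable_theta_mul {Y : ℂ → ℝ} (hY : Measurable Y)
    (hi : Integrable fun v => wt3 v * Y v) (x : ℂ) : Integrable fun v => theta (x - v) * Y v := by
  refine (hi.norm.const_mul (10 * (1 + ‖x‖) ^ 3)).mono'
    ((continuous_theta.comp (continuous_const.sub continuous_id)).measurable.mul
      hY).aestronglyMeasurable (ae_of_all _ fun v => ?_)
  rw [norm_mul, norm_mul, ← mul_assoc, Real.norm_of_nonneg (theta_pos _).le,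
    Real.norm_of_nonneg (wt3_pos _).le]
  exact mul_le_mul_of_nonneg_right (theta_le le_rfl v) (norm_nonneg _)

theorem abs_theta_integral_sub_le {Y : ℂ → ℝ} (hY : Measurable Y)
    (hi : Integrable fun v => wt3 v * Y v) {ρ : ℝ} {x y : ℂ} (hx : ‖x‖ ≤ ρ) (hy : ‖y‖ ≤ ρ) :
    |(∫ v, theta (x - v) * Y v) - ∫ v, theta (y - v) * Y v| ≤
      (1 + ρ) ^ 3 * (20 * ∫ v, |wt3 v * Y v|) * ‖x - y‖ := by
  rw [← integral_sub (integrable_theta_mul hY hi x) (integrable_theta_mul hY hi y)]
  calc |∫ v, (theta (x - v) * Y v - theta (y - v) * Y v)|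
      ≤ ∫ v, |theta (x - v) * Y v - theta (y - v) * Y v| := abs_integral_le_integral_abs
    _ ≤ ∫ v, (20 * (1 + ρ) ^ 3 * ‖x - y‖) * |wt3 v * Y v| := by
        refine integral_mono_of_nonneg (ae_of_all _ fun v => abs_nonneg _)
          (hi.abs.const_mul _) (ae_of_all _ fun v => ?_)
        change |theta (x - v) * Y v - theta (y - v) * Y v| ≤ _ * |wt3 v * Y v|
        rw [← sub_mul, abs_mul, abs_mul, abs_of_pos (wt3_pos v)]
        calc |theta (x - v) - theta (y - v)| * |Y v|
            ≤ 20 * (1 + ρ) ^ 3 * wt3 v * ‖x - y‖ * |Y v| :=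
              mul_le_mul_of_nonneg_right (theta_lip hx hy v) (abs_nonneg _)
          _ = _ := by ring
    _ = _ := by rw [integral_const_mul]; ring

variable {H Ω : Type*} [NormedAddCommGroup H] [InnerProductSpace ℝ H] [CompleteSpace H]
  [SecondCountableTopology H] {mΩ : MeasurableSpace Ω} {P : Measure Ω} {W : H → Ω → ℝ}

omit [CompleteSpace H] in
theorem integrable_theta_smul {g : ℂ → H} (hg : Continuous g) {C : ℝ} (hC : ∀ v, ‖g v‖ ≤ C)
    (x : ℂ) : Integrable fun v => theta (x - v) • g v := by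
  refine ((integrable_wt3.const_mul (10 * (1 + ‖x‖) ^ 3)).mul_const C).mono'
    ((continuous_theta.comp (continuous_const.sub continuous_id)).smul hg).aestronglyMeasurable
    (ae_of_all _ fun v => ?_)
  rw [norm_smul, Real.norm_of_nonneg (theta_pos _).le]
  exact mul_le_mul (theta_le le_rfl v) (hC v) (norm_nonneg _)
    ((theta_pos _).le.trans (theta_le le_rfl v))

theorem exists_version [MeasurableSpace H] [BorelSpace H] (hW : IsIso W P)
    (hJ : Measurable (Function.uncurry W)) {g : ℂ → H} (hg : Continuous g) {C : ℝ}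
    (hC : ∀ v, ‖g v‖ ≤ C) :
    ∃ (η : Ω → Fn) (Z : Ω → ℝ), Measurable η ∧ Measurable Z ∧ (∀ ω, 0 ≤ Z ω) ∧
      (∀ x, (fun ω => η ω x) =ᵐ[P] W (∫ v, theta (x - v) • g v)) ∧
      (∀ ω ρ x y, ‖x‖ ≤ ρ → ‖y‖ ≤ ρ → |η ω x - η ω y| ≤ (1 + ρ) ^ 3 * Z ω * ‖x - y‖) ∧
      ∀ a : ℝ, ∫⁻ ω, ENNReal.ofReal (exp (a * Z ω)) ∂P ≤
        ENNReal.ofReal (2 * exp ((20 * a) ^ 2 * (∫ v, wt3 v * C) ^ 2 / 2)) := by
  classical
  have hY : Measurable (Function.uncurry fun v ω => W (g v) ω) := meas_comp hJ hg.measurable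
  have hY1 : ∀ ω, Measurable fun v => W (g v) ω := fun ω => hY.of_uncurry_right
  have hYw : Measurable (Function.uncurry fun v ω => wt3 v * W (g v) ω) :=
    (continuous_wt3.measurable.comp measurable_fst).mul hY
  have hkw : ∀ v, (fun ω => wt3 v * W (g v) ω) =ᵐ[P] W (wt3 v • g v) := fun v =>
    (hW.smul (wt3 v) (g v)).mono fun ω h => h.symm
  have hnw : ∀ v, ‖wt3 v • g v‖ ≤ wt3 v * C := fun v => by
    rw [norm_smul, Real.norm_of_nonneg (wt3_pos v).le]
    exact mul_le_mul_of_nonneg_left (hC v) (wt3_pos v).le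
  let S : Set Ω := {ω | Integrable fun v => wt3 v * W (g v) ω}
  have hS : MeasurableSet S :=
    measurableSet_integrable (f := fun ω v => wt3 v * W (g v) ω)
      (hYw.comp measurable_swap).stronglyMeasurable
  have hSae : ∀ᵐ ω ∂P, ω ∈ S :=
    hW.ae_integrable' (k := fun v => wt3 v • g v) hYw (ae_of_all _ hkw)
      ((integrable_wt3.mul_const C).2.mono' (ae_of_all _ hnw))
  let f : Ω → ℂ → ℝ := fun ω x => if ω ∈ S then ∫ v, theta (x - v) * W (g v) ω else 0
  let Z : Ω → ℝ := fun ω => 20 * ∫ v, |wt3 v * W (g v) ω|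
  have hZ0 : ∀ ω, 0 ≤ Z ω := fun ω =>
    mul_nonneg (by norm_num) (integral_nonneg fun v => abs_nonneg _)
  have hlip : ∀ ω ρ x y, ‖x‖ ≤ ρ → ‖y‖ ≤ ρ → |f ω x - f ω y| ≤ (1 + ρ) ^ 3 * Z ω * ‖x - y‖ := by
    intro ω ρ x y hx hy
    by_cases hω : ω ∈ S
    · simp only [f, if_pos hω]
      exact abs_theta_integral_sub_le (hY1 ω) hω hx hy
    · simp only [f, if_neg hω, sub_self, abs_zero]
      have : 0 ≤ ρ := (norm_nonneg _).trans hx
      have := hZ0 ω
      positivity
  have hth : ∀ x, Measurable (Function.uncurry fun v ω => theta (x - v) * W (g v) ω) := fun x =>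
    ((continuous_theta.comp (continuous_const.sub continuous_id)).measurable.comp
      measurable_fst).mul hY
  refine ⟨fun ω => ⟨f ω, continuous_of_lip (hlip ω)⟩, Z, measurable_cm_iff.2 fun x => ?_, ?_, hZ0,
    fun x => ?_, hlip, fun a => ?_⟩
  · exact Measurable.ite hS
      (hth x).stronglyMeasurable.integral_prod_left.measurable measurable_const
  · exact (hYw.abs.stronglyMeasurable.integral_prod_left
      (f := fun v ω => |wt3 v * W (g v) ω|)).measurable.const_mul 20
  · filter_upwards [hSae, hW.integral_comm' (k := fun v => theta (x - v) • g v) (hth x)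
      (ae_of_all _ fun v => (hW.smul (theta (x - v)) (g v)).mono fun ω h => h.symm)
      (integrable_theta_smul hg hC x)] with ω h1 h2
    simp only [ContinuousMap.coe_mk, f, if_pos h1, h2]
  · have h1 := hW.lintegral_exp_integral_abs_le' (k := fun v => wt3 v • g v) hYw (ae_of_all _ hkw)
      (continuous_wt3.measurable.mul_const C) (integrable_wt3.mul_const C) (ae_of_all _ hnw) (20 * a)
    refine le_trans (le_of_eq (lintegral_congr fun ω => ?_)) h1
    simp only [Z]
    congr 2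
    ring

end LQ.Lay
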